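import Mathlib

/-!
Basic vocabulary for the project Syl2: a finite group `G` acting linearly on a vector space `V`
through `ρ : G →* Module.End k V`; everything is expressed by predicates on submodules of `V`.
-/

set_option autoImplicit false

namespace Pool.Syl2

open Module

section Defs

variable {k : Type} [Field k] {G : Type} [Group G] {V : Type} [AddCommGroup V] [Module k V]

/-- `W` is stable under the subgroup `A`. -/
def Stable (ρ : G →* Module.End k V) (A : Subgroup G) (W : Submodule k V) : Prop :=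
  ∀ a ∈ A, ∀ w ∈ W, ρ a w ∈ W

/-- `W` is a simple `A`-submodule. -/
def IsSimp (ρ : G →* Module.End k V) (A : Subgroup G) (W : Submodule k V) : Prop :=
  W ≠ ⊥ ∧ Stable ρ A W ∧ ∀ W' : Submodule k V, W' ≤ W → Stable ρ A W' → W' = ⊥ ∨ W' = W

/-- `W` and `W'` are isomorphic as `A`-modules. -/
def Iso (ρ : G →* Module.End k V) (A : Subgroup G) (W W' : Submodule k V) : Prop :=
  ∃ φ : W ≃ₗ[k] W', ∀ a ∈ A, ∀ w w' : W, (w' : V) = ρ a w → (φ w' : V) = ρ a (φ w)

/-- The vectors fixed by the elements of a set `S` of `G`. -/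
def fixS (ρ : G →* Module.End k V) (S : Set G) : Submodule k V where
  carrier := {v | ∀ s ∈ S, ρ s v = v}
  add_mem' := by
    intro a b ha hb s hs
    rw [map_add, ha s hs, hb s hs]
  zero_mem' := by
    intro s _
    exact map_zero _
  smul_mem' := by
    intro c x hx s hs
    rw [map_smul, hx s hs]

/-- The set of commutators `n f n⁻¹ f⁻¹`, `n ∈ N`. -/
def comS (N : Subgroup G) (f : G) : Set G := {g | ∃ n ∈ N, g = n * f * n⁻¹ * f⁻¹}

/-- The range of `ρ f - 1`. -/
def rg (ρ : G →* Module.End k V) (f : G) : Submodule k V := LinearMap.range (ρ f - 1)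

/-- The rank of `ρ f - 1`. -/
noncomputable def rk (ρ : G →* Module.End k V) (f : G) : ℕ := finrank k (rg ρ f)

/-- The subrepresentation on a submodule stable under all of `G`. -/
def subRep (ρ : G →* Module.End k V) (W : Submodule k V) (hW : ∀ g, ∀ w ∈ W, ρ g w ∈ W) :
    G →* Module.End k W where
  toFun g := (ρ g).restrict (hW g)
  map_one' := by
    ext w
    simp
  map_mul' g h := by
    ext w
    simp

/-- The quotient representation by a submodule stable under all of `G`. -/
def quoRep (ρ : G →* Module.End k V) (W : Submodule k V) (hW : ∀ g, ∀ w ∈ W, ρ g w ∈ W) :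
    G →* Module.End k (V ⧸ W) where
  toFun g := W.mapQ W (ρ g) (hW g)
  map_one' := by
    ext w
    simp
  map_mul' g h := by
    ext w
    simp

/-- Restriction to a subgroup. -/
def resRep (ρ : G →* Module.End k V) (A : Subgroup G) : A →* Module.End k V := ρ.comp A.subtype

end Defs

section Lemmas

variable {k : Type} [Field k] {G : Type} [Group G] {V : Type} [AddCommGroup V] [Module k V]
variable {ρ : G →* Module.End k V}

lemma rho_mul (g h : G) (v : V) : ρ (g * h) v = ρ g (ρ h v) := by rw [map_mul]; rfl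

lemma rho_one (v : V) : ρ 1 v = v := by rw [map_one]; rfl

lemma rho_inv_self (g : G) (v : V) : ρ g⁻¹ (ρ g v) = v := by
  rw [← rho_mul, inv_mul_cancel, rho_one]

lemma rho_self_inv (g : G) (v : V) : ρ g (ρ g⁻¹ v) = v := by
  rw [← rho_mul, mul_inv_cancel, rho_one]

lemma rho_inj (g : G) : Function.Injective (ρ g) := by
  intro v w h
  have := congrArg (ρ g⁻¹) h
  simpa only [rho_inv_self] using this

lemma mem_fixS (S : Set G) (v : V) : v ∈ fixS ρ S ↔ ∀ s ∈ S, ρ s v = v := Iff.rfl

lemma sub_rho (f : G) (v : V) : (ρ f - 1) v = ρ f v - v := by simp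

lemma subRep_apply (W : Submodule k V) (hW : ∀ g, ∀ w ∈ W, ρ g w ∈ W) (g : G) (w : W) :
    ((subRep ρ W hW g w : W) : V) = ρ g w := rfl

lemma quoRep_mk (W : Submodule k V) (hW : ∀ g, ∀ w ∈ W, ρ g w ∈ W) (g : G) (v : V) :
    quoRep ρ W hW g (W.mkQ v) = W.mkQ (ρ g v) := rfl

lemma resRep_apply (A : Subgroup G) (a : A) (v : V) : resRep ρ A a v = ρ (a : G) v := rfl

/-- The rank is superadditive. -/
lemma rk_sub_add_quo_le [FiniteDimensional k V] (W : Submodule k V)
    (hW : ∀ g, ∀ w ∈ W, ρ g w ∈ W) (f : G) :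
    rk (subRep ρ W hW) f + rk (quoRep ρ W hW) f ≤ rk ρ f := by
  -- range f on V maps onto range on quotient; its intersection with W contains the range on W
  have h1 : finrank k (rg (subRep ρ W hW) f) ≤ finrank k (LinearMap.ker (W.mkQ.domRestrict (rg ρ f))) := by
    have hmem : ∀ x : rg (subRep ρ W hW) f, ((x : W) : V) ∈ rg ρ f := by
      rintro ⟨x, y, rfl⟩
      exact ⟨(y : V), rfl⟩
    let φ : rg (subRep ρ W hW) f →ₗ[k] LinearMap.ker (W.mkQ.domRestrict (rg ρ f)) :=
      { toFun := fun x => ⟨⟨((x : W) : V), hmem x⟩, by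
          rw [LinearMap.mem_ker]
          simp⟩
        map_add' := fun x y => rfl
        map_smul' := fun c x => rfl }
    refine LinearMap.finrank_le_finrank_of_injective (f := φ) ?_
    intro x y hxy
    have := congrArg (fun z : LinearMap.ker (W.mkQ.domRestrict (rg ρ f)) => ((z : rg ρ f) : V)) hxy
    exact Subtype.ext (Subtype.ext this)
  have h2 : finrank k (rg (quoRep ρ W hW) f) ≤ finrank k (LinearMap.range (W.mkQ.domRestrict (rg ρ f))) := by
    apply Submodule.finrank_mono
    rintro x ⟨y, rfl⟩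
    obtain ⟨v, rfl⟩ := W.mkQ_surjective y
    refine ⟨⟨(ρ f - 1) v, ⟨v, rfl⟩⟩, ?_⟩
    rfl
  have h3 := LinearMap.finrank_range_add_finrank_ker (W.mkQ.domRestrict (rg ρ f))
  unfold rk
  omega

lemma finrank_ker_add_rk [FiniteDimensional k V] (f : G) :
    finrank k (LinearMap.ker (ρ f - 1)) + rk ρ f = finrank k V := by
  have := LinearMap.finrank_range_add_finrank_ker (ρ f - 1)
  unfold rk rg
  omega

lemma mem_ker_iff (f : G) (v : V) : v ∈ LinearMap.ker (ρ f - 1) ↔ ρ f v = v := by
  rw [LinearMap.mem_ker, sub_rho, sub_eq_zero]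

end Lemmas

end Pool.Syl2
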