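import Pool.Agent.Syl2.Basic

set_option autoImplicit false

namespace Pool.Syl2

section A
variable {k : Type} [Field k] {G : Type} [Group G] {V : Type} [AddCommGroup V] [Module k V]
variable {ρ : G →* Module.End k V} {A N : Subgroup G} {W W' W'' T U : Submodule k V}

theorem map_one' (W : Submodule k V) : W.map (ρ 1) = W := by
  rw [map_one]; exact Submodule.map_id W

theorem map_mul' (g h : G) (W : Submodule k V) : W.map (ρ (g * h)) = (W.map (ρ h)).map (ρ g) := by
  ext v; simp only [Submodule.mem_map, exists_exists_and_eq_and, rho_mul]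

theorem map_inv_self (g : G) (W : Submodule k V) : (W.map (ρ g)).map (ρ g⁻¹) = W := by
  rw [← map_mul', inv_mul_cancel, map_one']

theorem map_self_inv (g : G) (W : Submodule k V) : (W.map (ρ g⁻¹)).map (ρ g) = W := by
  rw [← map_mul', mul_inv_cancel, map_one']

theorem map_ne_bot (g : G) (h : W ≠ ⊥) : W.map (ρ g) ≠ ⊥ := fun h' => h (by
  rw [← map_inv_self (ρ := ρ) g W, h', Submodule.map_bot])

theorem Stable.bot : Stable ρ A (⊥ : Submodule k V) := fun a _ w hw => by
  rw [Submodule.mem_bot] at hw ⊢; rw [hw, map_zero]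

theorem Stable.top : Stable ρ A (⊤ : Submodule k V) := fun _ _ _ _ => trivial

theorem Stable.inf (h : Stable ρ A W) (h' : Stable ρ A W') : Stable ρ A (W ⊓ W') :=
  fun a ha w hw => ⟨h a ha w hw.1, h' a ha w hw.2⟩

theorem Stable.sup (h : Stable ρ A W) (h' : Stable ρ A W') : Stable ρ A (W ⊔ W') := by
  intro a ha w hw
  obtain ⟨x, hx, y, hy, rfl⟩ := Submodule.mem_sup.1 hw
  rw [map_add]
  exact Submodule.add_mem_sup (h a ha x hx) (h' a ha y hy)

theorem stable_iff_map_le : Stable ρ A W ↔ ∀ a ∈ A, W.map (ρ a) ≤ W := by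
  constructor
  · rintro h a ha _ ⟨w, hw, rfl⟩; exact h a ha w hw
  · intro h a ha w hw; exact h a ha ⟨w, hw, rfl⟩

theorem Stable.iSup {ι : Sort*} {F : ι → Submodule k V} (h : ∀ i, Stable ρ A (F i)) :
    Stable ρ A (⨆ i, F i) := by
  rw [stable_iff_map_le]
  intro a ha
  rw [Submodule.map_iSup]
  exact iSup_mono fun i => stable_iff_map_le.1 (h i) a ha

theorem Stable.finset_sup {ι : Type*} {F : ι → Submodule k V} {s : Finset ι}
    (h : ∀ i ∈ s, Stable ρ A (F i)) : Stable ρ A (s.sup F) := by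
  classical
  induction s using Finset.induction_on with
  | empty => simpa using Stable.bot
  | insert i t _ ih =>
    rw [Finset.sup_insert]
    exact (h i (Finset.mem_insert_self i t)).sup (ih fun j hj => h j (Finset.mem_insert_of_mem hj))

theorem Stable.mono (hAN : A ≤ N) (h : Stable ρ N W) : Stable ρ A W :=
  fun a ha => h a (hAN ha)

theorem Stable.map_eq (h : Stable ρ A W) {a : G} (ha : a ∈ A) : W.map (ρ a) = W := by
  apply le_antisymm (stable_iff_map_le.1 h a ha)
  intro w hw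
  exact ⟨ρ a⁻¹ w, h _ (A.inv_mem ha) w hw, rho_self_inv a w⟩

/-- translate of a stable submodule -/
theorem Stable.translate {x : G} (hx : ∀ n ∈ A, x⁻¹ * n * x ∈ A) (h : Stable ρ A W) :
    Stable ρ A (W.map (ρ x)) := by
  rintro a ha _ ⟨w, hw, rfl⟩
  refine ⟨ρ (x⁻¹ * a * x) w, h _ (hx a ha) w hw, ?_⟩
  rw [← rho_mul, ← rho_mul]
  congr 2
  group

/-- (C0'') translate of a simple submodule -/
theorem IsSimp.translate {x : G} (hx : ∀ n ∈ A, x * n * x⁻¹ ∈ A) (hx' : ∀ n ∈ A, x⁻¹ * n * x ∈ A)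
    (h : IsSimp ρ A W) : IsSimp ρ A (W.map (ρ x)) := by
  refine ⟨map_ne_bot x h.1, h.2.1.translate hx', fun W' hW' hs => ?_⟩
  have h1 : W'.map (ρ x⁻¹) ≤ W := by
    rw [← map_inv_self (ρ := ρ) x W]; exact Submodule.map_mono hW'
  have h2 : Stable ρ A (W'.map (ρ x⁻¹)) := hs.translate (by simpa using hx)
  rcases h.2.2 _ h1 h2 with h3 | h3
  · left; rw [← map_self_inv (ρ := ρ) x W', h3, Submodule.map_bot]
  · right; rw [← map_self_inv (ρ := ρ) x W', h3]

theorem IsSimp.disjoint_or_le (h : IsSimp ρ A W) (hT : Stable ρ A T) : W ⊓ T = ⊥ ∨ W ≤ T := by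
  rcases h.2.2 _ inf_le_left (h.2.1.inf hT) with h1 | h1
  · exact Or.inl h1
  · right; rw [← h1]; exact inf_le_right

theorem Iso.refl (W : Submodule k V) : Iso ρ A W W :=
  ⟨LinearEquiv.refl k W, fun _ _ _ _ h => h⟩

theorem Iso.symm (hs : Stable ρ A W) (h : Iso ρ A W W') : Iso ρ A W' W := by
  obtain ⟨φ, hφ⟩ := h
  refine ⟨φ.symm, fun a ha w w' hw => ?_⟩
  have h1 := hφ a ha (φ.symm w) ⟨ρ a (φ.symm w), hs a ha _ (φ.symm w).2⟩ rfl
  rw [LinearEquiv.apply_symm_apply, ← hw] at h1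
  have h2 : φ ⟨ρ a (φ.symm w), hs a ha _ (φ.symm w).2⟩ = w' := Subtype.ext h1
  rw [← h2, LinearEquiv.symm_apply_apply]

theorem Iso.trans (hs : Stable ρ A W) (h : Iso ρ A W W') (h' : Iso ρ A W' W'') : Iso ρ A W W'' := by
  obtain ⟨φ, hφ⟩ := h
  obtain ⟨ψ, hψ⟩ := h'
  refine ⟨φ.trans ψ, fun a ha w w' hw => ?_⟩
  exact hψ a ha (φ w) (φ w') (hφ a ha w w' hw)

/-- translates of isomorphic submodules are isomorphic -/
theorem Iso.translate {x : G} (hx' : ∀ n ∈ A, x⁻¹ * n * x ∈ A) (hs : Stable ρ A W)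
    (h : Iso ρ A W W') : Iso ρ A (W.map (ρ x)) (W'.map (ρ x)) := by
  obtain ⟨φ, hφ⟩ := h
  let e : W ≃ₗ[k] W.map (ρ x) := Submodule.equivMapOfInjective (ρ x) (rho_inj x) W
  let e' : W' ≃ₗ[k] W'.map (ρ x) := Submodule.equivMapOfInjective (ρ x) (rho_inj x) W'
  have he : ∀ w : W, (e w : V) = ρ x w := fun w => Submodule.coe_equivMapOfInjective_apply ..
  have he' : ∀ w : W', (e' w : V) = ρ x w := fun w => Submodule.coe_equivMapOfInjective_apply ..
  refine ⟨(e.symm.trans φ).trans e', fun a ha w w' hw => ?_⟩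
  have h1 : ρ x (e.symm w) = (w : V) := by rw [← he, LinearEquiv.apply_symm_apply]
  have h2 : ρ x (e.symm w') = (w' : V) := by rw [← he, LinearEquiv.apply_symm_apply]
  have h3 : ((e.symm w' : W) : V) = ρ (x⁻¹ * a * x) (e.symm w) := by
    apply rho_inj (ρ := ρ) x
    rw [h2, hw, ← h1, ← rho_mul, ← rho_mul]
    congr 2
    group
  have h4 := hφ _ (hx' a ha) (e.symm w) (e.symm w') h3
  show ((e' (φ (e.symm w')) : _) : V) = ρ a (e' (φ (e.symm w)))
  rw [he', he', h4, ← rho_mul, ← rho_mul]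
  congr 2
  group

/-- isomorphism from a relation modulo a stable submodule -/
theorem iso_of_rel (hT : Stable ρ A T) (hW : Stable ρ A W) (hW' : Stable ρ A W')
    (h1 : ∀ w ∈ W, ∃ u ∈ W', w - u ∈ T) (h2 : ∀ u ∈ W', ∃ w ∈ W, w - u ∈ T)
    (d1 : W ⊓ T = ⊥) (d2 : W' ⊓ T = ⊥) : Iso ρ A W W' := by
  classical
  choose! F hF hF' using h1
  have uni : ∀ u ∈ W', ∀ u' ∈ W', u - u' ∈ T → u = u' := fun u hu u' hu' h => by
    have : u - u' ∈ W' ⊓ T := ⟨W'.sub_mem hu hu', h⟩
    rw [d2, Submodule.mem_bot] at this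
    exact sub_eq_zero.1 this
  have uniW : ∀ u ∈ W, ∀ u' ∈ W, u - u' ∈ T → u = u' := fun u hu u' hu' h => by
    have : u - u' ∈ W ⊓ T := ⟨W.sub_mem hu hu', h⟩
    rw [d1, Submodule.mem_bot] at this
    exact sub_eq_zero.1 this
  let f : W →ₗ[k] W' :=
    { toFun := fun w => ⟨F w, hF w w.2⟩
      map_add' := fun w w' => by
        apply Subtype.ext
        show F (w + w' : V) = F w + F w'
        apply uni _ (hF _ (W.add_mem w.2 w'.2)) _ (W'.add_mem (hF _ w.2) (hF _ w'.2))
        have h3 := hF' _ (W.add_mem w.2 w'.2)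
        have h4 := T.add_mem (hF' _ w.2) (hF' _ w'.2)
        have : F (w + w' : V) - (F w + F w') = (w - F w + (w' - F w')) - (w + w' - F (w + w' : V)) := by
          abel
        rw [this]
        exact T.sub_mem h4 h3
      map_smul' := fun c w => by
        apply Subtype.ext
        show F (c • w : V) = c • F w
        apply uni _ (hF _ (W.smul_mem c w.2)) _ (W'.smul_mem c (hF _ w.2))
        have h3 := hF' _ (W.smul_mem c w.2)
        have h4 := T.smul_mem c (hF' _ w.2)
        have : F (c • w : V) - c • F w = (c • (w - F w : V)) - (c • (w : V) - F (c • w : V)) := by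
          rw [smul_sub]; abel
        rw [this]
        exact T.sub_mem h4 h3 }
  have hf : ∀ w : W, (f w : V) = F w := fun w => rfl
  have inj : Function.Injective f := fun w w' h => by
    apply Subtype.ext
    apply uniW _ w.2 _ w'.2
    have h3 : F w = F w' := by rw [← hf, ← hf, h]
    have h4 := T.sub_mem (hF' _ w.2) (hF' _ w'.2)
    rw [h3] at h4
    have : (w - w' : V) = w - F w' - (w' - F w') := by abel
    rw [this]; exact h4
  have surj : Function.Surjective f := fun u => by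
    obtain ⟨w, hw, hwu⟩ := h2 u u.2
    refine ⟨⟨w, hw⟩, Subtype.ext ?_⟩
    rw [hf]
    apply uni _ (hF _ hw) _ u.2
    have h4 := T.sub_mem hwu (hF' _ hw)
    have : F w - (u : V) = w - u - (w - F w) := by abel
    show F w - (u : V) ∈ T
    rw [this]; exact h4
  refine ⟨LinearEquiv.ofBijective f ⟨inj, surj⟩, fun a ha w w' hw => ?_⟩
  show (f w' : V) = ρ a (f w)
  rw [hf, hf]
  apply uni _ (hF _ w'.2) _ (hW' a ha _ (hF _ w.2))
  have h3 := hF' _ w'.2
  have h4 := hT a ha _ (hF' _ w.2)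
  rw [map_sub, ← hw] at h4
  have : F (w' : V) - ρ a (F w) = (w' - ρ a (F w)) - (w' - F w') := by abel
  rw [this]
  exact T.sub_mem h4 h3

/-- the exchange isomorphism -/
theorem iso_of_le_sup (hW : IsSimp ρ A W) (hW' : IsSimp ρ A W') (hT : Stable ρ A T)
    (hle : W ≤ W' ⊔ T) (d1 : W ⊓ T = ⊥) (d2 : W' ⊓ T = ⊥) : Iso ρ A W W' := by
  have h1 : ∀ w ∈ W, ∃ u ∈ W', w - u ∈ T := fun w hw => by
    obtain ⟨u, hu, t, ht, rfl⟩ := Submodule.mem_sup.1 (hle hw)
    exact ⟨u, hu, by rwa [add_sub_cancel_left]⟩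
  refine iso_of_rel hT hW.2.1 hW'.2.1 h1 ?_ d1 d2
  let R : Submodule k V := W' ⊓ (W ⊔ T)
  have hR : Stable ρ A R := hW'.2.1.inf (hW.2.1.sup hT)
  have hRne : R ≠ ⊥ := by
    obtain ⟨w, hw, hw0⟩ := Submodule.exists_mem_ne_zero_of_ne_bot hW.1
    obtain ⟨u, hu, hut⟩ := h1 w hw
    intro hb
    have : u ∈ R := ⟨hu, by
      have : u = w + -(w - u) := by abel
      rw [this]
      exact Submodule.add_mem_sup hw (T.neg_mem hut)⟩
    rw [hb, Submodule.mem_bot] at this
    rw [this, sub_zero] at hut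
    have : w ∈ W ⊓ T := ⟨hw, hut⟩
    rw [d1, Submodule.mem_bot] at this
    exact hw0 this
  have hRe : R = W' := (hW'.2.2 R inf_le_left hR).resolve_left hRne
  intro u hu
  have hu' : u ∈ R := hRe ▸ hu
  obtain ⟨w, hw, t, ht, hwt⟩ := Submodule.mem_sup.1 hu'.2
  refine ⟨w, hw, ?_⟩
  have : w - u = -t := by rw [← hwt]; abel
  rw [this]
  exact T.neg_mem ht

/-- a simple submodule in a finite sum of simple ones -/
theorem exists_subset_iso {ι : Type*} {F : ι → Submodule k V} (s : Finset ι)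
    (hF : ∀ i ∈ s, IsSimp ρ A (F i)) (hW : IsSimp ρ A W) (hle : W ≤ s.sup F) :
    ∃ t : Finset ι, t ⊆ s ∧ t.Nonempty ∧ W ≤ t.sup F ∧ ∀ i ∈ t, Iso ρ A W (F i) := by
  classical
  induction s using Finset.strongInduction with
  | H s ih =>
    by_cases hmin : ∃ i ∈ s, W ≤ (s.erase i).sup F
    · obtain ⟨i, hi, hle'⟩ := hmin
      obtain ⟨t, ht, h2⟩ := ih (s.erase i) (Finset.erase_ssubset hi)
        (fun j hj => hF j (Finset.mem_of_mem_erase hj)) hle'
      exact ⟨t, ht.trans (Finset.erase_subset i s), h2⟩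
    · push Not at hmin
      refine ⟨s, subset_rfl, ?_, hle, fun i hi => ?_⟩
      · rw [Finset.nonempty_iff_ne_empty]
        rintro rfl
        rw [Finset.sup_empty] at hle
        exact hW.1 (le_bot_iff.1 hle)
      · have hT : Stable ρ A ((s.erase i).sup F) :=
          Stable.finset_sup fun j hj => (hF j (Finset.mem_of_mem_erase hj)).2.1
        have hs : s.sup F = F i ⊔ (s.erase i).sup F := by
          rw [← Finset.sup_insert, Finset.insert_erase hi]
        refine iso_of_le_sup hW (hF i hi) hT (hs ▸ hle) ?_ ?_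
        · exact (hW.disjoint_or_le hT).resolve_right (hmin i hi)
        · refine ((hF i hi).disjoint_or_le hT).resolve_right fun h => hmin i hi ?_
          rw [hs, sup_eq_right.2 h] at hle
          exact hle

/-- (C0') pairwise non-isomorphic simple submodules are independent -/
theorem iSupIndep_of_not_iso {ι : Type*} [Finite ι] {F : ι → Submodule k V}
    (hF : ∀ i, IsSimp ρ A (F i)) (hn : ∀ i j, Iso ρ A (F i) (F j) → i = j) : iSupIndep F := by
  classical
  have := Fintype.ofFinite ι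
  intro i
  rw [disjoint_iff]
  have hs : (⨆ j, ⨆ (_ : j ≠ i), F j) = (Finset.univ.erase i).sup F := by
    rw [Finset.sup_eq_iSup]
    simp
  rw [hs]
  refine ((hF i).disjoint_or_le (Stable.finset_sup fun j _ => (hF j).2.1)).resolve_right fun h => ?_
  obtain ⟨t, ht, ⟨j, hj⟩, _, hiso⟩ := exists_subset_iso _ (fun j _ => hF j) (hF i) h
  have := hn i j (hiso j hj)
  subst this
  exact (Finset.mem_erase.1 (ht hj)).1 rfl

/-- with pairwise non-isomorphic summands the simple submodules are the summands -/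
theorem eq_of_le_sup_of_not_iso {ι : Type*} [Fintype ι] {F : ι → Submodule k V}
    (hF : ∀ i, IsSimp ρ A (F i)) (hn : ∀ i j, Iso ρ A (F i) (F j) → i = j)
    (hW : IsSimp ρ A W) (hle : W ≤ ⨆ i, F i) : ∃ i, W = F i := by
  classical
  rw [← Finset.sup_univ_eq_iSup] at hle
  obtain ⟨t, -, ⟨j, hj⟩, hle', hiso⟩ := exists_subset_iso _ (fun j _ => hF j) hW hle
  refine ⟨j, ?_⟩
  have ht : t = {j} := by
    rw [Finset.eq_singleton_iff_unique_mem]
    refine ⟨hj, fun i hi => hn i j ?_⟩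
    exact ((hiso i hi).symm hW.2.1).trans (hF i).2.1 (hiso j hj)
  rw [ht, Finset.sup_singleton] at hle'
  exact ((hF j).2.2 W hle' hW.2.1).resolve_left hW.1

end A
end Pool.Syl2
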