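import Pool.Agent.Syl2.CliffCount

set_option autoImplicit false

namespace Pool.Syl2

section Grp
variable {G : Type} [Group G] {A N : Subgroup G}

/-- the subgroup `A` of prime index `q` in `N`: generation by one element and orders -/
theorem prime_index_gen (hnorm : ∀ n ∈ N, ∀ a ∈ A, n * a * n⁻¹ ∈ A) {q : ℕ} (hq : q.Prime)
    (hidx : A.relIndex N = q) {y : G} (hy : y ∈ N) (hyA : y ∉ A) :
    (∀ n ∈ N, ∃ i < q, (y ^ i)⁻¹ * n ∈ A) ∧ ∀ i : ℕ, y ^ i ∈ A ↔ q ∣ i := by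
  have := Fact.mk hq
  let H : Subgroup N := A.subgroupOf N
  have hH : H.Normal := ⟨fun a ha n => by
    rw [Subgroup.mem_subgroupOf] at ha ⊢
    exact hnorm n n.2 a ha⟩
  have hcard : Nat.card (N ⧸ H) = q := hidx
  let yb : N ⧸ H := QuotientGroup.mk (⟨y, hy⟩ : N)
  have hyb : yb ≠ 1 := fun h => by
    rw [QuotientGroup.eq_one_iff] at h
    exact hyA h
  have hord : orderOf yb = q := by
    have h1 : orderOf yb ∣ q := hcard ▸ orderOf_dvd_natCard yb
    rcases (Nat.dvd_prime hq).1 h1 with h2 | h2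
    · exact absurd (orderOf_eq_one_iff.1 h2) hyb
    · exact h2
  have hpow : ∀ i : ℕ, yb ^ i = QuotientGroup.mk (⟨y ^ i, N.pow_mem hy i⟩ : N) := fun i => by
    rw [← QuotientGroup.mk_pow]; rfl
  constructor
  · intro n hn
    have h1 : (QuotientGroup.mk (⟨n, hn⟩ : N) : N ⧸ H) ∈ Submonoid.powers yb :=
      mem_powers_of_prime_card hcard hyb
    obtain ⟨i, hi⟩ := h1
    refine ⟨i % q, Nat.mod_lt _ hq.pos, ?_⟩
    have h2 : yb ^ (i % q) = QuotientGroup.mk (⟨n, hn⟩ : N) := by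
      rw [← hi, ← hord]
      exact pow_mod_orderOf yb i
    rw [hpow, QuotientGroup.eq] at h2
    exact h2
  · intro i
    rw [← hord, orderOf_dvd_iff_pow_eq_one, hpow, QuotientGroup.eq_one_iff]
    exact Iff.rfl

end Grp

section C
variable {k : Type} [Field k] {G : Type} [Group G] {V : Type} [AddCommGroup V] [Module k V]
variable {ρ : G →* Module.End k V} {A N : Subgroup G} {W W' W'' T U : Submodule k V}

/-- (C2) Clifford's theorem for a normal subgroup of prime index -/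
theorem clifford_prime (hAN : A ≤ N) (hnorm : ∀ n ∈ N, ∀ a ∈ A, n * a * n⁻¹ ∈ A) {q : ℕ}
    (hq : q.Prime) (hidx : A.relIndex N = q) (hV : IsSimp ρ N (⊤ : Submodule k V)) :
    (∀ W W', IsSimp ρ A W → IsSimp ρ A W' → Iso ρ A W W') ∨
    ((∀ W, IsSimp ρ A W → ∀ n ∈ N, n ∉ A → ¬ Iso ρ A (W.map (ρ n)) W) ∧
      ∀ W, IsSimp ρ A W → (∀ n ∈ N, n ∉ A → Disjoint W (W.map (ρ n))) ∧
      (∀ y ∈ N, y ∉ A → (⨆ i : Fin q, W.map (ρ (y ^ (i : ℕ)))) = ⊤ ∧
        iSupIndep (fun i : Fin q => W.map (ρ (y ^ (i : ℕ)))) ∧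
        ∀ W', IsSimp ρ A W' → ∃ i : Fin q, W' = W.map (ρ (y ^ (i : ℕ)))) ∧
      ∀ W', IsSimp ρ A W' → ∃ n ∈ N, W' = W.map (ρ n)) := by
  classical
  have hnorm' : ∀ n ∈ N, ∀ a ∈ A, n⁻¹ * a * n ∈ A := fun n hn a ha => by
    have := hnorm n⁻¹ (N.inv_mem hn) a ha
    rwa [inv_inv] at this
  have tr : ∀ n ∈ N, ∀ W, IsSimp ρ A W → IsSimp ρ A (W.map (ρ n)) := fun n hn W hW =>
    hW.translate (hnorm n hn) (hnorm' n hn)
  -- spanning
  have span : ∀ W, IsSimp ρ A W → ∀ y ∈ N, y ∉ A → (⨆ i : Fin q, W.map (ρ (y ^ (i : ℕ)))) = ⊤ := by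
    intro W hW y hy hyA
    obtain ⟨h1, h2⟩ := prime_index_gen hnorm hq hidx hy hyA
    have hne : (⨆ i : Fin q, W.map (ρ (y ^ (i : ℕ)))) ≠ ⊥ := fun h => hW.1 (by
      have h3 := le_iSup (fun i : Fin q => W.map (ρ (y ^ (i : ℕ)))) ⟨0, hq.pos⟩
      rw [h] at h3
      have h4 : W.map (ρ (y ^ 0)) ≤ ⊥ := h3
      rw [pow_zero, map_one'] at h4
      exact le_bot_iff.1 h4)
    refine (hV.2.2 _ le_top ?_).resolve_left hne
    rw [stable_iff_map_le]
    intro n hn
    rw [Submodule.map_iSup]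
    refine iSup_le fun i => ?_
    obtain ⟨j, hj, hja⟩ := h1 (n * y ^ (i : ℕ)) (N.mul_mem hn (N.pow_mem hy _))
    have h5 : (W.map (ρ (y ^ (i : ℕ)))).map (ρ n) = W.map (ρ (y ^ j)) := by
      rw [← map_mul']
      have h6 : n * y ^ (i : ℕ) = y ^ j * ((y ^ j)⁻¹ * (n * y ^ (i : ℕ))) := by group
      rw [h6, map_mul', hW.2.1.map_eq hja]
    rw [h5]
    exact le_iSup (fun i : Fin q => W.map (ρ (y ^ (i : ℕ)))) ⟨j, hj⟩
  by_cases hcase : ∃ W0, IsSimp ρ A W0 ∧ ∃ n ∈ N, n ∉ A ∧ Iso ρ A (W0.map (ρ n)) W0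
  · left
    obtain ⟨W0, hW0, n, hn, hnA, hiso⟩ := hcase
    have hpow : ∀ i : ℕ, Iso ρ A W0 (W0.map (ρ (n ^ i))) := by
      intro i
      induction i with
      | zero => rw [pow_zero, map_one']; exact Iso.refl _
      | succ i ih =>
        rw [pow_succ', map_mul']
        exact (hiso.symm (tr n hn W0 hW0).2.1).trans hW0.2.1
          (Iso.translate (hnorm' n hn) hW0.2.1 ih)
    have hall : ∀ W, IsSimp ρ A W → Iso ρ A W W0 := by
      intro W hW
      have hle : W ≤ Finset.univ.sup (fun i : Fin q => W0.map (ρ (n ^ (i : ℕ)))) := by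
        rw [Finset.sup_univ_eq_iSup, span W0 hW0 n hn hnA]
        exact le_top
      obtain ⟨t, -, ⟨j, hj⟩, -, h⟩ := exists_subset_iso _
        (fun i _ => tr _ (N.pow_mem hn _) W0 hW0) hW hle
      exact (h j hj).trans hW.2.1 ((hpow j).symm hW0.2.1)
    intro W W' hW hW'
    exact (hall W hW).trans hW.2.1 ((hall W' hW').symm hW'.2.1)
  · right
    have hcase' : ∀ W, IsSimp ρ A W → ∀ n ∈ N, n ∉ A → ¬ Iso ρ A (W.map (ρ n)) W :=
      fun W hW n hn hnA h => hcase ⟨W, hW, n, hn, hnA, h⟩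
    refine ⟨hcase', fun W hW => ?_⟩
    have hstr : ∀ y ∈ N, y ∉ A → (⨆ i : Fin q, W.map (ρ (y ^ (i : ℕ)))) = ⊤ ∧
        iSupIndep (fun i : Fin q => W.map (ρ (y ^ (i : ℕ)))) ∧
        ∀ W', IsSimp ρ A W' → ∃ i : Fin q, W' = W.map (ρ (y ^ (i : ℕ))) := by
      intro y hy hyA
      obtain ⟨h1, h2⟩ := prime_index_gen hnorm hq hidx hy hyA
      have hF : ∀ i : Fin q, IsSimp ρ A (W.map (ρ (y ^ (i : ℕ)))) := fun i =>
        tr _ (N.pow_mem hy _) W hW
      have hlt : ∀ i j : ℕ, i < j → j < q →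
          ¬ Iso ρ A (W.map (ρ (y ^ j))) (W.map (ρ (y ^ i))) := by
        intro i j hij hj h
        have h3 := Iso.translate (x := (y ^ i)⁻¹) (hnorm' _ (N.inv_mem (N.pow_mem hy i)))
          (tr _ (N.pow_mem hy _) W hW).2.1 h
        rw [map_inv_self, ← map_mul'] at h3
        have h4 : (y ^ i)⁻¹ * y ^ j = y ^ (j - i) := by
          rw [pow_sub y hij.le, (Commute.refl y).pow_pow i j |>.inv_left.eq]
        rw [h4] at h3
        refine hcase' W hW _ (N.pow_mem hy _) ?_ h3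
        rw [h2]
        intro hd
        have := Nat.le_of_dvd (by omega) hd
        omega
      have hn : ∀ i j : Fin q, Iso ρ A (W.map (ρ (y ^ (i : ℕ)))) (W.map (ρ (y ^ (j : ℕ)))) →
          i = j := by
        intro i j h
        rcases lt_trichotomy (i : ℕ) j with h5 | h5 | h5
        · exact absurd (h.symm (hF i).2.1) (hlt i j h5 j.2)
        · exact Fin.ext h5
        · exact absurd h (hlt j i h5 i.2)
      refine ⟨span W hW y hy hyA, iSupIndep_of_not_iso hF hn, fun W' hW' => ?_⟩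
      exact eq_of_le_sup_of_not_iso hF hn hW' (by rw [span W hW y hy hyA]; exact le_top)
    refine ⟨fun n hn hnA => ?_, hstr, fun W' hW' => ?_⟩
    · rw [disjoint_iff]
      refine (hW.disjoint_or_le (tr n hn W hW).2.1).resolve_right fun hle => ?_
      have h6 : W = W.map (ρ n) := ((tr n hn W hW).2.2 W hle hW.2.1).resolve_left hW.1
      refine hcase' W hW n hn hnA ?_
      rw [← h6]
      exact Iso.refl _
    · have hne : ∃ y ∈ N, y ∉ A := by
        by_contra hcon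
        have : N ≤ A := fun y hy => by
          by_contra h
          exact hcon ⟨y, hy, h⟩
        have h7 : A.relIndex N = 1 := Subgroup.relIndex_eq_one.2 this
        rw [hidx] at h7
        exact hq.one_lt.ne' h7
      obtain ⟨y, hy, hyA⟩ := hne
      obtain ⟨i, hi⟩ := (hstr y hy hyA).2.2 W' hW'
      exact ⟨_, N.pow_mem hy _, hi⟩

end C
end Pool.Syl2
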