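import Pool.Agent.Syl2.CliffCount

set_option autoImplicit false

namespace Pool.Syl2

section Maschke
variable {k : Type} [Field k] {G : Type} [Group G] {V : Type} [AddCommGroup V] [Module k V]
variable {ρ : G →* Module.End k V} {A N : Subgroup G} {W W' W'' T U : Submodule k V}

/-- (C4) Maschke: a stable submodule has a stable complement -/
theorem exists_stable_compl [Finite A] (h : (Nat.card A : k) ≠ 0) (hW : Stable ρ A W) :
    ∃ U, Stable ρ A U ∧ IsCompl W U := by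
  classical
  have := Fintype.ofFinite A
  obtain ⟨W1, hW1⟩ := W.exists_isCompl
  let e : Module.End k V := W.subtype ∘ₗ (W.projectionOnto W1 hW1)
  have he : ∀ w ∈ W, e w = w := fun w hw => by
    show ((W.projectionOnto W1 hW1 w : W) : V) = w
    have := Submodule.projectionOnto_apply_left hW1 (⟨w, hw⟩ : W)
    rw [this]
  have heW : ∀ v, e v ∈ W := fun v => (W.projectionOnto W1 hW1 v).2
  let S : Module.End k V := ∑ a : A, ρ (a : G) * e * ρ (a : G)⁻¹
  let P : Module.End k V := (Nat.card A : k)⁻¹ • S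
  have hS : ∀ v, S v = ∑ a : A, ρ (a : G) (e (ρ (a : G)⁻¹ v)) := fun v => by
    show (∑ a : A, ρ (a : G) * e * ρ (a : G)⁻¹) v = _
    rw [LinearMap.sum_apply]
    rfl
  have hPW : ∀ v, P v ∈ W := fun v => by
    show (Nat.card A : k)⁻¹ • S v ∈ W
    rw [hS]
    exact W.smul_mem _ (W.sum_mem fun a _ => hW a a.2 _ (heW _))
  have hPw : ∀ w ∈ W, P w = w := fun w hw => by
    show (Nat.card A : k)⁻¹ • S w = w
    have h1 : S w = (Nat.card A : k) • w := by
      rw [hS]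
      have : ∀ a : A, ρ (a : G) (e (ρ (a : G)⁻¹ w)) = w := fun a => by
        rw [he _ (hW _ (A.inv_mem a.2) w hw), rho_self_inv]
      rw [Finset.sum_congr rfl fun a _ => this a, Finset.sum_const, Finset.card_univ,
        ← Nat.card_eq_fintype_card, Nat.cast_smul_eq_nsmul]
    rw [h1, smul_smul, inv_mul_cancel₀ h, one_smul]
  have hcomm : ∀ b ∈ A, ∀ v, P (ρ b v) = ρ b (P v) := fun b hb v => by
    show (Nat.card A : k)⁻¹ • S (ρ b v) = ρ b ((Nat.card A : k)⁻¹ • S v)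
    rw [map_smul, hS, hS, map_sum]
    congr 1
    refine Fintype.sum_equiv (Equiv.mulLeft (⟨b, hb⟩ : A)⁻¹) _ _ fun a => ?_
    show ρ (a : G) (e (ρ (a : G)⁻¹ (ρ b v))) =
      ρ b (ρ (b⁻¹ * (a : G)) (e (ρ (b⁻¹ * (a : G))⁻¹ v)))
    have h1 : b * (b⁻¹ * (a : G)) = a := by group
    have h2 : (b⁻¹ * (a : G))⁻¹ = (a : G)⁻¹ * b := by group
    rw [← rho_mul b (b⁻¹ * (a : G)), h1, h2, rho_mul (a : G)⁻¹ b]
  refine ⟨LinearMap.ker P, ?_, ?_⟩
  · intro b hb v hv
    rw [LinearMap.mem_ker] at hv ⊢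
    rw [hcomm b hb, hv, map_zero]
  · constructor
    · rw [disjoint_iff, Submodule.eq_bot_iff]
      rintro v ⟨hv, hv'⟩
      have : P v = 0 := hv'
      rwa [hPw v hv] at this
    · rw [codisjoint_iff, eq_top_iff]
      intro v _
      have h1 : v = P v + (v - P v) := by abel
      rw [h1]
      refine Submodule.add_mem_sup (hPW v) ?_
      rw [LinearMap.mem_ker, map_sub, hPw _ (hPW v), sub_self]

/-- every element lies in the sum of the simple submodules -/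
theorem sSup_simp_eq_top [Finite V] [Finite A] (h : (Nat.card A : k) ≠ 0) :
    sSup {W : Submodule k V | IsSimp ρ A W} = ⊤ := by
  have hs : Stable ρ A (sSup {W : Submodule k V | IsSimp ρ A W}) := by
    rw [sSup_eq_iSup']
    exact Stable.iSup fun W => W.2.2.1
  obtain ⟨U, hU, hc⟩ := exists_stable_compl h hs
  by_cases hb : U = ⊥
  · have := hc.sup_eq_top
    rwa [hb, sup_bot_eq] at this
  · exfalso
    obtain ⟨S, hSU, hS⟩ := exists_simp_le hU hb
    have h1 : S ≤ sSup {W : Submodule k V | IsSimp ρ A W} := le_sSup hS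
    have h2 : S ≤ ⊥ := by
      rw [← hc.inf_eq_bot]
      exact le_inf h1 hSU
    exact hS.1 (le_bot_iff.1 h2)

/-- the same inside a stable submodule -/
theorem sSup_simp_le_eq [Finite V] [Finite A] (h : (Nat.card A : k) ≠ 0) (hW : Stable ρ A W) :
    sSup {U : Submodule k V | U ≤ W ∧ IsSimp ρ A U} = W := by
  have hs : Stable ρ A (sSup {U : Submodule k V | U ≤ W ∧ IsSimp ρ A U}) := by
    rw [sSup_eq_iSup']
    exact Stable.iSup fun W => W.2.2.2.1
  have hle : sSup {U : Submodule k V | U ≤ W ∧ IsSimp ρ A U} ≤ W := sSup_le fun U hU => hU.1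
  obtain ⟨U, hU, hc⟩ := exists_stable_compl h hs
  by_cases hb : U ⊓ W = ⊥
  · apply le_antisymm hle
    intro w hw
    have h1 : w ∈ sSup {U : Submodule k V | U ≤ W ∧ IsSimp ρ A U} ⊔ U := by
      rw [hc.sup_eq_top]; trivial
    obtain ⟨s, hsm, u, hu, rfl⟩ := Submodule.mem_sup.1 h1
    have h2 : u ∈ U ⊓ W := ⟨hu, by
      have := W.sub_mem hw (hle hsm)
      rwa [add_sub_cancel_left] at this⟩
    rw [hb, Submodule.mem_bot] at h2
    rw [h2, add_zero]
    exact hsm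
  · exfalso
    obtain ⟨S, hSU, hS⟩ := exists_simp_le (hU.inf hW) hb
    have h1 : S ≤ sSup {U : Submodule k V | U ≤ W ∧ IsSimp ρ A U} :=
      le_sSup ⟨hSU.trans inf_le_right, hS⟩
    have h2 : S ≤ ⊥ := by
      rw [← hc.inf_eq_bot]
      exact le_inf h1 (hSU.trans inf_le_left)
    exact hS.1 (le_bot_iff.1 h2)

/-- lifting of fixed points modulo a stable submodule -/
theorem fix_lift [Finite A] (h : (Nat.card A : k) ≠ 0) (hW : Stable ρ A W) {v : V}
    (hv : ∀ a ∈ A, ρ a v - v ∈ W) : ∃ u, (∀ a ∈ A, ρ a u = u) ∧ v - u ∈ W := by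
  classical
  have := Fintype.ofFinite A
  refine ⟨(Nat.card A : k)⁻¹ • ∑ a : A, ρ (a : G) v, ?_, ?_⟩
  · intro b hb
    rw [map_smul, map_sum]
    congr 1
    refine Fintype.sum_equiv (Equiv.mulLeft (⟨b, hb⟩ : A)) _ _ fun a => ?_
    show ρ b (ρ (a : G) v) = ρ (b * (a : G)) v
    rw [rho_mul]
  · have h1 : v - (Nat.card A : k)⁻¹ • ∑ a : A, ρ (a : G) v =
        -((Nat.card A : k)⁻¹ • ∑ a : A, (ρ (a : G) v - v)) := by
      rw [Finset.sum_sub_distrib, Finset.sum_const, Finset.card_univ,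
        ← Nat.card_eq_fintype_card, ← Nat.cast_smul_eq_nsmul k, smul_sub, smul_smul,
        inv_mul_cancel₀ h, one_smul]
      abel
    rw [h1]
    exact W.neg_mem (W.smul_mem _ (W.sum_mem fun a _ => hv a a.2))

end Maschke

section Coprime
variable {G : Type} [Group G] {A N X : Subgroup G}

/-- (C5) coprime action on a coset -/
theorem coprime_coset [Finite A] {p : ℕ} [Fact p.Prime] (hX : IsPGroup p X)
    (hcard : ¬ p ∣ Nat.card A) (hAN : A ≤ N) (hnorm : ∀ n ∈ N, ∀ a ∈ A, n * a * n⁻¹ ∈ A)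
    (hXA : ∀ x ∈ X, ∀ a ∈ A, x * a * x⁻¹ ∈ A) {n : G} (hn : n ∈ N)
    (h : ∀ x ∈ X, x * n * x⁻¹ * n⁻¹ ∈ A) :
    ∃ c ∈ N, (∀ x ∈ X, x * c = c * x) ∧ c⁻¹ * n ∈ A := by
  classical
  let Ω : Type := {c : G // c⁻¹ * n ∈ A}
  let e : Ω ≃ A :=
    { toFun := fun c => ⟨c.1⁻¹ * n, c.2⟩
      invFun := fun a => ⟨n * (a : G)⁻¹, by
        have : (n * (a : G)⁻¹)⁻¹ * n = a := by group
        rw [this]; exact a.2⟩
      left_inv := fun c => by
        apply Subtype.ext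
        show n * (c.1⁻¹ * n)⁻¹ = c.1
        group
      right_inv := fun a => by
        apply Subtype.ext
        show (n * (a : G)⁻¹)⁻¹ * n = a
        group }
  have hΩ : ¬ p ∣ Nat.card Ω := by rw [Nat.card_congr e]; exact hcard
  have hmem : ∀ x ∈ X, ∀ c : Ω, (x * c.1 * x⁻¹)⁻¹ * n ∈ A := by
    intro x hx c
    have h1 : x * (c.1⁻¹ * n) * x⁻¹ ∈ A := hXA x hx _ c.2
    have h2 : (x * n * x⁻¹ * n⁻¹)⁻¹ ∈ A := A.inv_mem (h x hx)
    have h3 := hnorm n⁻¹ (N.inv_mem hn) _ h2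
    have h4 : (x * c.1 * x⁻¹)⁻¹ * n =
        (x * (c.1⁻¹ * n) * x⁻¹) * (n⁻¹ * (x * n * x⁻¹ * n⁻¹)⁻¹ * n⁻¹⁻¹) := by group
    rw [h4]
    exact A.mul_mem h1 h3
  let act : MulAction X Ω :=
    { smul := fun x c => ⟨(x : G) * c.1 * (x : G)⁻¹, hmem x x.2 c⟩
      one_smul := fun c => Subtype.ext (by
        show (1 : G) * c.1 * (1 : G)⁻¹ = c.1
        group)
      mul_smul := fun x y c => Subtype.ext (by
        show ((x : G) * (y : G)) * c.1 * ((x : G) * (y : G))⁻¹ =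
          (x : G) * ((y : G) * c.1 * (y : G)⁻¹) * (x : G)⁻¹
        group) }
  obtain ⟨c, hc⟩ := hX.nonempty_fixed_point_of_prime_not_dvd_card Ω hΩ
  refine ⟨c.1, ?_, fun x hx => ?_, c.2⟩
  · have : c.1 = n * (c.1⁻¹ * n)⁻¹ := by group
    rw [this]
    exact N.mul_mem hn (N.inv_mem (hAN c.2))
  · have h1 : (x : G) * c.1 * (x : G)⁻¹ = c.1 := congrArg Subtype.val (hc ⟨x, hx⟩)
    have h2 := congrArg (fun z => z * x) h1
    simpa using h2

/-- (C3) a maximal `X`-invariant normal subgroup has prime index and `X` acts by `±1` -/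
theorem exists_prime_index [Finite G] (hsol : Group.IsSolvable N) (hN : N ≠ ⊥)
    (hXN : ∀ x ∈ X, ∀ n ∈ N, x * n * x⁻¹ ∈ N) (hXc : ∀ x ∈ X, ∀ y ∈ X, x * y = y * x)
    (hX2 : ∀ x ∈ X, x * x = 1) :
    ∃ A : Subgroup G, A ≤ N ∧ A ≠ N ∧ (∀ n ∈ N, ∀ a ∈ A, n * a * n⁻¹ ∈ A) ∧
      (∀ x ∈ X, ∀ a ∈ A, x * a * x⁻¹ ∈ A) ∧ (∃ q : ℕ, q.Prime ∧ A.relIndex N = q) ∧
      ∀ x ∈ X, (∀ n ∈ N, x * n * x⁻¹ * n⁻¹ ∈ A) ∨ (∀ n ∈ N, x * n * x⁻¹ * n ∈ A) := by
  classical
  let S : Set (Subgroup G) := {A | ⁅N, N⁆ ≤ A ∧ A ≤ N ∧ A ≠ N ∧ ∀ x ∈ X, ∀ a ∈ A, x * a * x⁻¹ ∈ A}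
  have hne : ⁅N, N⁆ ≠ N := by
    intro heq
    have hnt : Nontrivial N := (Subgroup.nontrivial_iff_ne_bot N).2 hN
    have h1 : commutator N < ⊤ := Group.IsSolvable.commutator_lt_top_of_nontrivial N
    have h2 : (commutator N).map N.subtype = ⁅N, N⁆ := by
      rw [commutator_def, Subgroup.map_commutator, ← MonoidHom.range_eq_map, Subgroup.range_subtype]
    apply h1.ne
    rw [eq_top_iff]
    intro n _
    have h3 : (n : G) ∈ (commutator N).map N.subtype := by rw [h2, heq]; exact n.2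
    obtain ⟨m, hm, hmn⟩ := h3
    have : m = n := Subtype.ext hmn
    rw [← this]; exact hm
  have hcle : ⁅N, N⁆ ≤ N := Subgroup.commutator_le.2 fun a ha b hb => by
    show a * b * a⁻¹ * b⁻¹ ∈ N
    exact N.mul_mem (N.mul_mem (N.mul_mem ha hb) (N.inv_mem ha)) (N.inv_mem hb)
  have hS0 : ⁅N, N⁆ ∈ S := by
    refine ⟨le_rfl, hcle, hne, fun x hx a ha => ?_⟩
    have h1 : (⁅N, N⁆).map (MulAut.conj x).toMonoidHom ≤ ⁅N, N⁆ := by
      rw [Subgroup.map_commutator]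
      have h2 : N.map (MulAut.conj x).toMonoidHom ≤ N := by
        rintro _ ⟨n, hn, rfl⟩
        exact hXN x hx n hn
      exact Subgroup.commutator_mono h2 h2
    exact h1 ⟨a, ha, rfl⟩
  obtain ⟨A, hA⟩ := (Set.toFinite S).exists_maximal ⟨_, hS0⟩
  obtain ⟨hA1, hA2, hA3, hA4⟩ := hA.prop
  have hnorm : ∀ n ∈ N, ∀ a ∈ A, n * a * n⁻¹ ∈ A := fun n hn a ha => by
    have h1 : n * a * n⁻¹ * a⁻¹ ∈ A := hA1 (Subgroup.commutator_mem_commutator hn (hA2 ha))
    have h2 := A.mul_mem h1 ha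
    rwa [inv_mul_cancel_right] at h2
  have hmax : ∀ B : Subgroup G, A ≤ B → B ≤ N → (∀ x ∈ X, ∀ a ∈ B, x * a * x⁻¹ ∈ B) →
      B = A ∨ B = N := by
    intro B hAB hBN hB
    by_cases h : B = N
    · exact Or.inr h
    · left
      exact le_antisymm (hA.le_of_ge ⟨hA1.trans hAB, hBN, h, hB⟩ hAB) hAB
  have hsgn : ∀ x ∈ X, (∀ n ∈ N, x * n * x⁻¹ * n⁻¹ ∈ A) ∨ (∀ n ∈ N, x * n * x⁻¹ * n ∈ A) := by
    intro x hx
    let C : Subgroup G :=
      { carrier := {n | n ∈ N ∧ x * n * x⁻¹ * n⁻¹ ∈ A}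
        one_mem' := ⟨N.one_mem, by
          have : x * 1 * x⁻¹ * (1 : G)⁻¹ = 1 := by group
          rw [this]; exact A.one_mem⟩
        mul_mem' := fun {n m} hn hm => ⟨N.mul_mem hn.1 hm.1, by
          have h1 := hnorm n hn.1 _ hm.2
          have h2 : x * (n * m) * x⁻¹ * (n * m)⁻¹ =
            (x * n * x⁻¹ * n⁻¹) * (n * (x * m * x⁻¹ * m⁻¹) * n⁻¹) := by group
          rw [h2]; exact A.mul_mem hn.2 h1⟩
        inv_mem' := fun {n} hn => ⟨N.inv_mem hn.1, by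
          have h1 := hnorm n⁻¹ (N.inv_mem hn.1) _ (A.inv_mem hn.2)
          have h2 : x * n⁻¹ * x⁻¹ * n⁻¹⁻¹ = n⁻¹ * (x * n * x⁻¹ * n⁻¹)⁻¹ * n⁻¹⁻¹ := by group
          rw [h2]; exact h1⟩ }
    have hAC : A ≤ C := fun a ha => ⟨hA2 ha, A.mul_mem (hA4 x hx a ha) (A.inv_mem ha)⟩
    have hCN : C ≤ N := fun n hn => hn.1
    have hCX : ∀ y ∈ X, ∀ a ∈ C, y * a * y⁻¹ ∈ C := by
      intro y hy n hn
      refine ⟨hXN y hy n hn.1, ?_⟩
      have h1 := hA4 y hy _ hn.2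
      have h2 : x * (y * n * y⁻¹) * x⁻¹ * (y * n * y⁻¹)⁻¹ = y * (x * n * x⁻¹ * n⁻¹) * y⁻¹ := by
        have h3 : y⁻¹ * x⁻¹ = x⁻¹ * y⁻¹ := by
          rw [← mul_inv_rev, ← mul_inv_rev, hXc x hx y hy]
        calc x * (y * n * y⁻¹) * x⁻¹ * (y * n * y⁻¹)⁻¹
            = (x * y) * n * (y⁻¹ * x⁻¹) * (y * n⁻¹ * y⁻¹) := by group
          _ = (y * x) * n * (x⁻¹ * y⁻¹) * (y * n⁻¹ * y⁻¹) := by rw [h3, hXc x hx y hy]
          _ = y * (x * n * x⁻¹ * n⁻¹) * y⁻¹ := by group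
      rw [h2]; exact h1
    rcases hmax C hAC hCN hCX with h | h
    · right
      intro n hn
      have hxn : x * n * x⁻¹ ∈ N := hXN x hx n hn
      have hm : n * (x * n * x⁻¹) ∈ C := by
        refine ⟨N.mul_mem hn hxn, ?_⟩
        have hx1 : x⁻¹ = x := inv_eq_of_mul_eq_one_left (hX2 x hx)
        have h2 : x * (n * (x * n * x⁻¹)) * x⁻¹ * (n * (x * n * x⁻¹))⁻¹ =
            (x * n * x⁻¹) * n * (x * n * x⁻¹)⁻¹ * n⁻¹ := by
          have h3 : x * (n * (x * n * x⁻¹)) * x⁻¹ * (n * (x * n * x⁻¹))⁻¹ =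
            (x * n * x⁻¹) * ((x * x) * n * (x * x)⁻¹) * (x * n * x⁻¹)⁻¹ * n⁻¹ := by group
          rw [h3, hX2 x hx]
          group
        rw [h2]
        exact hA1 (Subgroup.commutator_mem_commutator hxn hn)
      rw [h] at hm
      have h4 := hnorm n⁻¹ (N.inv_mem hn) _ hm
      have h5 : x * n * x⁻¹ * n = n⁻¹ * (n * (x * n * x⁻¹)) * n⁻¹⁻¹ := by group
      rw [h5]; exact h4
    · left
      intro n hn
      have : n ∈ C := by rw [h]; exact hn
      exact this.2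
  refine ⟨A, hA2, hA3, hnorm, hA4, ?_, hsgn⟩
  -- prime index
  obtain ⟨y, hy, hyA⟩ : ∃ y ∈ N, y ∉ A := by
    by_contra hcon
    apply hA3
    apply le_antisymm hA2
    intro y hy
    by_contra h
    exact hcon ⟨y, hy, h⟩
  have hex : ∃ m : ℕ, 0 < m ∧ y ^ m ∈ A := ⟨orderOf y, orderOf_pos y, by
    rw [pow_orderOf_eq_one]; exact A.one_mem⟩
  let m := Nat.find hex
  have hm : 0 < m ∧ y ^ m ∈ A := Nat.find_spec hex
  have hmin : ∀ i, 0 < i → i < m → y ^ i ∉ A := fun i hi hlt h =>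
    Nat.find_min hex hlt ⟨hi, h⟩
  have hm1 : m ≠ 1 := fun h => hyA (by
    have := hm.2
    rwa [h, pow_one] at this)
  let q := m.minFac
  have hq : q.Prime := Nat.minFac_prime hm1
  obtain ⟨r, hr⟩ := Nat.minFac_dvd m
  have hr' : m = q * r := hr
  have hr0 : 0 < r := by
    rcases Nat.eq_zero_or_pos r with h | h
    · rw [h, mul_zero] at hr'; omega
    · exact h
  have hrm : r < m := by
    rw [hr']
    exact (Nat.lt_mul_iff_one_lt_left hr0).2 hq.one_lt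
  let z := y ^ r
  have hz : z ∈ N := N.pow_mem hy r
  have hzA : z ∉ A := hmin r hr0 hrm
  have hzq : z ^ q ∈ A := by
    show (y ^ r) ^ q ∈ A
    rw [← pow_mul, mul_comm, ← hr']
    exact hm.2
  have hB : A ⊔ Subgroup.zpowers z = N := by
    refine (hmax (A ⊔ Subgroup.zpowers z) le_sup_left
      (sup_le hA2 (by rwa [Subgroup.zpowers_le])) ?_).resolve_left ?_
    · intro x hx
      have hle : (A ⊔ Subgroup.zpowers z) ≤
          (A ⊔ Subgroup.zpowers z).comap (MulAut.conj x).toMonoidHom := by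
        refine sup_le (fun a ha => Subgroup.mem_sup_left (hA4 x hx a ha)) ?_
        rw [Subgroup.zpowers_le]
        show x * z * x⁻¹ ∈ A ⊔ Subgroup.zpowers z
        rcases hsgn x hx with h | h
        · have h1 : x * z * x⁻¹ = (x * z * x⁻¹ * z⁻¹) * z := by group
          rw [h1]
          exact Subgroup.mul_mem _ (Subgroup.mem_sup_left (h z hz))
            (Subgroup.mem_sup_right (Subgroup.mem_zpowers z))
        · have h1 : x * z * x⁻¹ = (x * z * x⁻¹ * z) * z⁻¹ := by group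
          rw [h1]
          exact Subgroup.mul_mem _ (Subgroup.mem_sup_left (h z hz))
            (Subgroup.inv_mem _ (Subgroup.mem_sup_right (Subgroup.mem_zpowers z)))
      exact fun a ha => hle ha
    · intro h
      apply hzA
      rw [← h]
      exact Subgroup.mem_sup_right (Subgroup.mem_zpowers z)
  refine ⟨q, hq, ?_⟩
  have := Fact.mk hq
  let H : Subgroup N := A.subgroupOf N
  have hH : H.Normal := ⟨fun a ha n => by
    rw [Subgroup.mem_subgroupOf] at ha ⊢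
    exact hnorm n n.2 a ha⟩
  let zb : N ⧸ H := QuotientGroup.mk (⟨z, hz⟩ : N)
  have hzb : zb ≠ 1 := fun h => by
    rw [QuotientGroup.eq_one_iff] at h
    exact hzA h
  have hord : orderOf zb = q := by
    refine orderOf_eq_prime ?_ hzb
    show (QuotientGroup.mk (⟨z, hz⟩ : N) : N ⧸ H) ^ q = 1
    rw [← QuotientGroup.mk_pow, QuotientGroup.eq_one_iff]
    exact hzq
  have hall : ∀ g : N ⧸ H, g ∈ Subgroup.zpowers zb := by
    let K : Subgroup G := ((Subgroup.zpowers zb).comap (QuotientGroup.mk' H)).map N.subtype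
    have hNK : N ≤ K := by
      rw [← hB]
      refine sup_le (fun a ha => ⟨⟨a, hA2 ha⟩, ?_, rfl⟩) ?_
      · show (QuotientGroup.mk (⟨a, hA2 ha⟩ : N) : N ⧸ H) ∈ Subgroup.zpowers zb
        have h1 : (QuotientGroup.mk (⟨a, hA2 ha⟩ : N) : N ⧸ H) = 1 := by
          rw [QuotientGroup.eq_one_iff]
          exact ha
        rw [h1]
        exact Subgroup.one_mem _
      · rw [Subgroup.zpowers_le]
        exact ⟨⟨z, hz⟩, Subgroup.mem_zpowers zb, rfl⟩
    intro g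
    obtain ⟨n, rfl⟩ := QuotientGroup.mk_surjective g
    obtain ⟨n', hn', hnn⟩ := hNK n.2
    have : n' = n := Subtype.ext hnn
    rw [← this]
    exact hn'
  show Nat.card (N ⧸ H) = q
  rw [← hord]
  exact (orderOf_eq_card_of_forall_mem_zpowers hall).symm

end Coprime
end Pool.Syl2
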