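import Pool.Agent.Syl2.Cliff

set_option autoImplicit false

namespace Pool.Syl2

section B
variable {k : Type} [Field k] {G : Type} [Group G] {V : Type} [AddCommGroup V] [Module k V]
variable {ρ : G →* Module.End k V} {A N : Subgroup G} {W W' W'' T U : Submodule k V}

/-- equivariant maps from `W` to `V` -/
def HomA (ρ : G →* Module.End k V) (A : Subgroup G) (W : Submodule k V) :
    Submodule k (W →ₗ[k] V) where
  carrier := {f | ∀ a ∈ A, ∀ w w' : W, (w' : V) = ρ a w → f w' = ρ a (f w)}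
  zero_mem' := fun a _ w w' _ => by simp
  add_mem' := fun {f g} hf hg a ha w w' h => by
    rw [LinearMap.add_apply, LinearMap.add_apply, map_add, hf a ha w w' h, hg a ha w w' h]
  smul_mem' := fun c f hf a ha w w' h => by
    rw [LinearMap.smul_apply, LinearMap.smul_apply, map_smul, hf a ha w w' h]

/-- equivariant endomorphisms of `W` -/
def EndA (ρ : G →* Module.End k V) (A : Subgroup G) (W : Submodule k V) :
    Submodule k (W →ₗ[k] W) where
  carrier := {f | ∀ a ∈ A, ∀ w w' : W, (w' : V) = ρ a w → (f w' : V) = ρ a (f w)}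
  zero_mem' := fun a _ w w' _ => by simp
  add_mem' := fun {f g} hf hg a ha w w' h => by
    rw [LinearMap.add_apply, LinearMap.add_apply, Submodule.coe_add, Submodule.coe_add, map_add,
      hf a ha w w' h, hg a ha w w' h]
  smul_mem' := fun c f hf a ha w w' h => by
    rw [LinearMap.smul_apply, LinearMap.smul_apply, Submodule.coe_smul, Submodule.coe_smul,
      map_smul, hf a ha w w' h]

/-- a finite nonzero submodule over a field of characteristic `p` has order divisible by `p` -/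
theorem dvd_card_of_ne_bot {p : ℕ} [Fact p.Prime] [CharP k p] {M : Type*} [AddCommGroup M]
    [Module k M] [Finite M] {H : Submodule k M} (h : H ≠ ⊥) : p ∣ Nat.card H := by
  obtain ⟨x, hx, hx0⟩ := Submodule.exists_mem_ne_zero_of_ne_bot h
  have h1 : addOrderOf (⟨x, hx⟩ : H) ∣ Nat.card H := addOrderOf_dvd_natCard _
  have h2 : addOrderOf (⟨x, hx⟩ : H) = p := by
    apply addOrderOf_eq_prime
    · rw [← Nat.cast_smul_eq_nsmul k, CharP.cast_eq_zero, zero_smul]
    · intro h3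
      exact hx0 (congrArg Subtype.val h3)
  rwa [h2] at h1

theorem card_ne_zero_add_one {M : Type*} [AddCommGroup M] [Finite M] :
    Nat.card {x : M // x ≠ 0} + 1 = Nat.card M := by
  classical
  have := Fintype.ofFinite M
  rw [Nat.card_eq_fintype_card, Nat.card_eq_fintype_card, Fintype.card_subtype_compl,
    Fintype.card_subtype_eq]
  have : 0 < Fintype.card M := Fintype.card_pos
  omega

theorem ker_map_stable {f : W →ₗ[k] V} (hf : f ∈ HomA ρ A W) (hs : Stable ρ A W) :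
    Stable ρ A ((LinearMap.ker f).map W.subtype) := by
  rintro a ha _ ⟨w, hw, rfl⟩
  have hw' : f w = 0 := hw
  refine ⟨⟨ρ a w, hs a ha _ w.2⟩, ?_, rfl⟩
  show f ⟨ρ a w, hs a ha _ w.2⟩ = 0
  rw [hf a ha w ⟨ρ a w, hs a ha _ w.2⟩ rfl, hw', map_zero]

theorem injective_of_ne_zero {f : W →ₗ[k] V} (hW : IsSimp ρ A W) (hf : f ∈ HomA ρ A W)
    (h0 : f ≠ 0) : Function.Injective f := by
  rw [← LinearMap.ker_eq_bot]
  rcases hW.2.2 _ (Submodule.map_subtype_le _ _) (ker_map_stable hf hW.2.1) with h | h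
  · rw [Submodule.eq_bot_iff]
    intro w hw
    have h1 : (w : V) ∈ (LinearMap.ker f).map W.subtype := ⟨w, hw, rfl⟩
    rw [h, Submodule.mem_bot] at h1
    exact Subtype.ext h1
  · exfalso
    apply h0
    ext w
    have : (w : V) ∈ (LinearMap.ker f).map W.subtype := by rw [h]; exact w.2
    obtain ⟨w', hw', hww⟩ := this
    have : w' = w := Subtype.ext hww
    rw [← this]; exact hw'

theorem range_stable {f : W →ₗ[k] V} (hf : f ∈ HomA ρ A W) (hs : Stable ρ A W) :
    Stable ρ A (LinearMap.range f) := by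
  rintro a ha _ ⟨w, rfl⟩
  exact ⟨⟨ρ a w, hs a ha _ w.2⟩, hf a ha w ⟨ρ a w, hs a ha _ w.2⟩ rfl⟩

theorem iso_range {f : W →ₗ[k] V} (hf : f ∈ HomA ρ A W) (inj : Function.Injective f) :
    Iso ρ A W (LinearMap.range f) :=
  ⟨LinearEquiv.ofInjective f inj, fun a ha w w' h => hf a ha w w' h⟩

theorem simp_of_iso (hW : IsSimp ρ A W) (hs : Stable ρ A W') (h : Iso ρ A W W') :
    IsSimp ρ A W' := by
  obtain ⟨φ, hφ⟩ := h
  refine ⟨fun hb => hW.1 ?_, hs, fun U hU hUs => ?_⟩
  · rw [Submodule.eq_bot_iff]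
    intro w hw
    have h1 : (φ ⟨w, hw⟩ : V) = 0 := by
      have := hb.le (φ ⟨w, hw⟩).2
      rwa [Submodule.mem_bot] at this
    have h2 : φ ⟨w, hw⟩ = 0 := Subtype.ext h1
    have h3 := (LinearEquiv.map_eq_zero_iff φ).1 h2
    exact congrArg Subtype.val h3
  · let P : Submodule k V := ((U.comap W'.subtype).comap φ.toLinearMap).map W.subtype
    have hP : ∀ w : W, (w : V) ∈ P ↔ (φ w : V) ∈ U := fun w => by
      constructor
      · rintro ⟨w', hw', h⟩
        have : w' = w := Subtype.ext h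
        rw [← this]; exact hw'
      · intro h; exact ⟨w, h, rfl⟩
    have hPs : Stable ρ A P := by
      intro a ha w hw
      have hwW : w ∈ W := Submodule.map_subtype_le _ _ hw
      have h1 := (hP ⟨w, hwW⟩).1 hw
      have h2 := hφ a ha ⟨w, hwW⟩ ⟨ρ a w, hW.2.1 a ha w hwW⟩ rfl
      apply (hP ⟨ρ a w, hW.2.1 a ha w hwW⟩).2
      rw [h2]
      exact hUs a ha _ h1
    rcases hW.2.2 P (Submodule.map_subtype_le _ _) hPs with h | h
    · left
      rw [Submodule.eq_bot_iff]
      intro u hu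
      have h1 : ((φ.symm ⟨u, hU hu⟩ : W) : V) ∈ P := by
        rw [hP, LinearEquiv.apply_symm_apply]; exact hu
      rw [h, Submodule.mem_bot] at h1
      have h2 : φ.symm ⟨u, hU hu⟩ = 0 := Subtype.ext h1
      have h3 := (LinearEquiv.map_eq_zero_iff φ.symm).1 h2
      exact congrArg Subtype.val h3
    · right
      apply le_antisymm hU
      intro u hu
      have h1 : ((φ.symm ⟨u, hu⟩ : W) : V) ∈ P := by rw [h]; exact (φ.symm ⟨u, hu⟩).2
      rw [hP, LinearEquiv.apply_symm_apply] at h1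
      exact h1

/-- the submodules isomorphic to `W` -/
def Cls (ρ : G →* Module.End k V) (A : Subgroup G) (W : Submodule k V) : Type :=
  {U : Submodule k V // Stable ρ A U ∧ Iso ρ A W U}

instance [Finite V] : Finite (Cls ρ A W) := by
  unfold Cls
  infer_instance

/-- number of isomorphic copies -/
theorem card_cls [Finite V] (hW : IsSimp ρ A W) :
    Nat.card {f : HomA ρ A W // f ≠ 0} = Nat.card (Cls ρ A W) * Nat.card {f : EndA ρ A W // f ≠ 0} := by
  classical
  rw [← Nat.card_prod]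
  have key : ∀ U : Cls ρ A W, ∃ φ : W ≃ₗ[k] U.1,
      ∀ a ∈ A, ∀ w w' : W, (w' : V) = ρ a w → (φ w' : V) = ρ a (φ w) := fun U => U.2.2
  choose φ hφ using key
  symm
  have mem : ∀ (U : Cls ρ A W) (f : EndA ρ A W),
      U.1.subtype ∘ₗ (φ U).toLinearMap ∘ₗ f.1 ∈ HomA ρ A W := fun U f a ha w w' h => by
    show ((φ U (f.1 w') : U.1) : V) = ρ a (φ U (f.1 w))
    exact hφ U a ha (f.1 w) (f.1 w') (f.2 a ha w w' h)
  have ne : ∀ (U : Cls ρ A W) (f : EndA ρ A W), f ≠ 0 →
      (⟨_, mem U f⟩ : HomA ρ A W) ≠ 0 := fun U f hf h0 => by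
    apply hf
    apply Subtype.ext
    ext w
    have h1 : (U.1.subtype ∘ₗ (φ U).toLinearMap ∘ₗ f.1) w = 0 := by
      have := congrArg Subtype.val h0
      have h2 := congrArg (fun g : W →ₗ[k] V => g w) this
      exact h2
    have h2 : φ U (f.1 w) = 0 := Subtype.ext h1
    have h3 := (LinearEquiv.map_eq_zero_iff (φ U)).1 h2
    show ((f.1 w : W) : V) = ((0 : W) : V)
    rw [h3]
  refine Nat.card_congr (Equiv.ofBijective
    (fun x : Cls ρ A W × {f : EndA ρ A W // f ≠ 0} =>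
      (⟨⟨_, mem x.1 x.2.1⟩, ne x.1 x.2.1 x.2.2⟩ : {f : HomA ρ A W // f ≠ 0})) ⟨?_, ?_⟩)
  · -- injective
    have rg : ∀ (U : Cls ρ A W) (f : {f : EndA ρ A W // f ≠ 0}),
        LinearMap.range (U.1.subtype ∘ₗ (φ U).toLinearMap ∘ₗ f.1.1) = U.1 := fun U f => by
      have hi := injective_of_ne_zero hW (mem U f.1) (fun h => ne U f.1 f.2 (Subtype.ext h))
      have hs := range_stable (mem U f.1) hW.2.1
      have hU : IsSimp ρ A U.1 := simp_of_iso hW U.2.1 U.2.2
      have hle : LinearMap.range (U.1.subtype ∘ₗ (φ U).toLinearMap ∘ₗ f.1.1) ≤ U.1 := by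
        rintro _ ⟨w, rfl⟩
        exact (φ U (f.1.1 w)).2
      refine (hU.2.2 _ hle hs).resolve_left fun hb => ?_
      rw [LinearMap.range_eq_bot] at hb
      exact ne U f.1 f.2 (Subtype.ext hb)
    rintro ⟨U, f⟩ ⟨U', f'⟩ h
    have h1 : U.1.subtype ∘ₗ (φ U).toLinearMap ∘ₗ f.1.1 =
        U'.1.subtype ∘ₗ (φ U').toLinearMap ∘ₗ f'.1.1 := congrArg (fun x => x.1.1) h
    have h2 : U = U' := by
      apply Subtype.ext
      rw [← rg U f, ← rg U' f', h1]
    subst h2
    have h3 : f = f' := by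
      apply Subtype.ext
      apply Subtype.ext
      ext w
      have h4 := congrArg (fun g : W →ₗ[k] V => g w) h1
      have h5 : φ U (f.1.1 w) = φ U (f'.1.1 w) := Subtype.ext h4
      rw [(φ U).injective h5]
    rw [h3]
  · -- surjective
    rintro ⟨⟨g, hg⟩, hg0⟩
    have hg0' : g ≠ 0 := fun h => hg0 (Subtype.ext h)
    have hi := injective_of_ne_zero hW hg hg0'
    let U : Cls ρ A W := ⟨LinearMap.range g, range_stable hg hW.2.1, iso_range hg hi⟩
    let e : W ≃ₗ[k] U.1 := LinearEquiv.ofInjective g hi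
    let f : W →ₗ[k] W := (φ U).symm.toLinearMap ∘ₗ e.toLinearMap
    have hφf : ∀ w, (φ U (f w) : V) = g w := fun w => by
      show ((φ U ((φ U).symm (e w)) : U.1) : V) = g w
      rw [LinearEquiv.apply_symm_apply]
      rfl
    have hf : f ∈ EndA ρ A W := fun a ha w w' h => by
      have h1 : (φ U (⟨ρ a (f w), hW.2.1 a ha _ (f w).2⟩ : W) : V) = ρ a (φ U (f w)) :=
        hφ U a ha (f w) ⟨ρ a (f w), hW.2.1 a ha _ (f w).2⟩ rfl
      rw [hφf, ← hg a ha w w' h, ← hφf] at h1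
      have h2 := (φ U).injective (Subtype.ext h1)
      rw [← h2]
    have hf0 : (⟨f, hf⟩ : EndA ρ A W) ≠ 0 := fun h0 => by
      apply hg0'
      ext w
      have : f w = 0 := congrArg (fun x : EndA ρ A W => x.1 w) h0
      rw [← hφf, this, map_zero]
      rfl
    refine ⟨⟨U, ⟨⟨f, hf⟩, hf0⟩⟩, ?_⟩
    apply Subtype.ext
    apply Subtype.ext
    ext w
    exact hφf w

theorem homA_ne_bot (hW : W ≠ ⊥) : HomA ρ A W ≠ ⊥ := fun h => by
  have : W.subtype ∈ HomA ρ A W := fun a _ w w' h => h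
  rw [h, Submodule.mem_bot] at this
  apply hW
  rw [Submodule.eq_bot_iff]
  intro w hw
  exact congrArg (fun f : W →ₗ[k] V => f ⟨w, hw⟩) this

theorem endA_ne_bot (hW : W ≠ ⊥) : EndA ρ A W ≠ ⊥ := fun h => by
  have : LinearMap.id ∈ EndA ρ A W := fun a _ w w' h => h
  rw [h, Submodule.mem_bot] at this
  apply hW
  rw [Submodule.eq_bot_iff]
  intro w hw
  exact congrArg (fun f : W →ₗ[k] W => ((f ⟨w, hw⟩ : W) : V)) this

/-- the number of copies is prime to `p` -/
theorem not_dvd_card_cls [Finite V] {p : ℕ} [Fact p.Prime] [CharP k p] (hW : IsSimp ρ A W) :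
    ¬ p ∣ Nat.card (Cls ρ A W) := by
  intro hd
  have : Finite (W →ₗ[k] V) := Finite.of_injective (fun f : W →ₗ[k] V => (f : W → V))
    DFunLike.coe_injective
  have h1 := card_cls hW
  have h2 : Nat.card {f : HomA ρ A W // f ≠ 0} + 1 = Nat.card (HomA ρ A W) := card_ne_zero_add_one
  have h4 : p ∣ Nat.card (HomA ρ A W) := dvd_card_of_ne_bot (k := k) (homA_ne_bot hW.1)
  have h5 : p ∣ Nat.card {f : HomA ρ A W // f ≠ 0} := by rw [h1]; exact hd.mul_right _
  rw [← h2] at h4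
  have h6 : p ∣ 1 := (Nat.dvd_add_right h5).1 h4
  exact (Fact.out : p.Prime).one_lt.ne' (Nat.dvd_one.1 h6)

/-- existence of simple submodules -/
theorem exists_simp_le [Finite V] (hs : Stable ρ A W) (h0 : W ≠ ⊥) :
    ∃ U, U ≤ W ∧ IsSimp ρ A U := by
  classical
  have hfin : ({U : Submodule k V | U ≤ W ∧ Stable ρ A U ∧ U ≠ ⊥}).Finite := Set.toFinite _
  obtain ⟨U, hU⟩ := hfin.exists_minimal ⟨W, le_rfl, hs, h0⟩
  refine ⟨U, hU.prop.1, hU.prop.2.2, hU.prop.2.1, fun U' hU' hs' => ?_⟩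
  by_cases hb : U' = ⊥
  · exact Or.inl hb
  · right
    exact le_antisymm hU' (hU.le_of_le ⟨hU'.trans hU.prop.1, hs', hb⟩ hU')

/-- (C0): a `p`-group normalising `A` fixes a simple submodule as soon as it fixes its type -/
theorem exists_simp_fixed [Finite V] {p : ℕ} [Fact p.Prime] [CharP k p] (X : Subgroup G)
    (hX : IsPGroup p X) (hXA : ∀ x ∈ X, ∀ n ∈ A, x * n * x⁻¹ ∈ A) {W0 : Submodule k V}
    (hW0 : IsSimp ρ A W0) :
    ∃ W, IsSimp ρ A W ∧ Iso ρ A W0 W ∧ ∀ x ∈ X, Iso ρ A (W.map (ρ x)) W → W.map (ρ x) = W := by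
  classical
  have hXA' : ∀ x ∈ X, ∀ n ∈ A, x⁻¹ * n * x ∈ A := fun x hx n hn => by
    have := hXA x⁻¹ (X.inv_mem hx) n hn
    rwa [inv_inv] at this
  let X0 : Subgroup G :=
    { carrier := {x | x ∈ X ∧ Iso ρ A (W0.map (ρ x)) W0}
      one_mem' := ⟨X.one_mem, by rw [map_one']; exact Iso.refl _⟩
      mul_mem' := fun {x y} hx hy => ⟨X.mul_mem hx.1 hy.1, by
        rw [map_mul']
        exact (Iso.translate (hXA' x hx.1) (hW0.2.1.translate (hXA' y hy.1)) hy.2).trans
          ((hW0.2.1.translate (hXA' y hy.1)).translate (hXA' x hx.1)) hx.2⟩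
      inv_mem' := fun {x} hx => ⟨X.inv_mem hx.1, by
        have h1 := Iso.translate (x := x⁻¹) (by simpa using hXA x hx.1)
          (hW0.2.1.translate (hXA' x hx.1)) hx.2
        rw [map_inv_self] at h1
        exact h1.symm hW0.2.1⟩ }
  have hX0 : IsPGroup p X0 := hX.to_le fun x hx => hx.1
  let act : MulAction X0 (Cls ρ A W0) :=
    { smul := fun x U => ⟨U.1.map (ρ (x : G)), U.2.1.translate (hXA' x x.2.1),
        (x.2.2.symm (hW0.2.1.translate (hXA' x x.2.1))).trans hW0.2.1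
          (Iso.translate (hXA' x x.2.1) hW0.2.1 U.2.2)⟩
      one_smul := fun U => Subtype.ext (map_one' U.1)
      mul_smul := fun x y U => Subtype.ext (map_mul' (x : G) (y : G) U.1) }
  obtain ⟨U, hU⟩ := hX0.nonempty_fixed_point_of_prime_not_dvd_card (Cls ρ A W0)
    (not_dvd_card_cls (p := p) hW0)
  refine ⟨U.1, simp_of_iso hW0 U.2.1 U.2.2, U.2.2, fun x hx hiso => ?_⟩
  have hxX0 : x ∈ X0 := ⟨hx, by
    have h1 : Iso ρ A (W0.map (ρ x)) (U.1.map (ρ x)) := Iso.translate (hXA' x hx) hW0.2.1 U.2.2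
    exact (h1.trans (hW0.2.1.translate (hXA' x hx)) hiso).trans
      (hW0.2.1.translate (hXA' x hx)) (U.2.2.symm hW0.2.1)⟩
  exact congrArg Subtype.val (hU ⟨x, hxX0⟩)

end B
end Pool.Syl2
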