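import Mathlib

/-! # Table facts, part 1: characters of complex representations and the relation `TRel` -/

set_option autoImplicit false

namespace Pool.Syl2

open Representation

/-- `χ` is the character of a finite-dimensional complex representation of `G`. -/
def IsChar (G : Type) [Group G] (χ : G → ℂ) : Prop :=
  ∃ (V : Type) (_ : AddCommGroup V) (_ : Module ℂ V) (_ : FiniteDimensional ℂ V)
    (ρ : Representation ℂ G V), χ = ρ.character

/-- `R` relates the elements of corresponding classes of two groups with the same character table. -/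
structure TRel (G H : Type) [Group G] [Group H] (R : G → H → Prop) : Prop where
  left : ∀ g, ∃ h, R g h
  right : ∀ h, ∃ g, R g h
  conj : ∀ g g' h h', R g h → IsConj g g' → IsConj h h' → R g' h'
  fwd : ∀ χ, IsChar G χ → ∃ ψ, IsChar H ψ ∧ ∀ g h, R g h → χ g = ψ h
  bwd : ∀ ψ, IsChar H ψ → ∃ χ, IsChar G χ ∧ ∀ g h, R g h → χ g = ψ h

section Chars

variable {G : Type} [Group G]

theorem isChar_character {V : Type} [AddCommGroup V] [Module ℂ V] [FiniteDimensional ℂ V]
    (ρ : Representation ℂ G V) : IsChar G ρ.character := ⟨V, _, _, inferInstance, ρ, rfl⟩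

/-- direct sum of two representations -/
noncomputable def prodRep {V W : Type} [AddCommGroup V] [Module ℂ V] [AddCommGroup W] [Module ℂ W]
    (ρ : Representation ℂ G V) (σ : Representation ℂ G W) : Representation ℂ G (V × W) where
  toFun g := (ρ g).prodMap (σ g)
  map_one' := by ext <;> simp
  map_mul' g h := by ext <;> simp

theorem IsChar.add {χ ψ : G → ℂ} (h : IsChar G χ) (h' : IsChar G ψ) : IsChar G (χ + ψ) := by
  obtain ⟨V, _, _, _, ρ, rfl⟩ := h
  obtain ⟨W, _, _, _, σ, rfl⟩ := h'
  refine ⟨V × W, _, _, inferInstance, prodRep ρ σ, ?_⟩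
  ext g
  show _ = LinearMap.trace ℂ (V × W) ((ρ g).prodMap (σ g))
  rw [LinearMap.trace_prodMap']
  rfl

theorem IsChar.mul {χ ψ : G → ℂ} (h : IsChar G χ) (h' : IsChar G ψ) : IsChar G (χ * ψ) := by
  obtain ⟨V, _, _, _, ρ, rfl⟩ := h
  obtain ⟨W, _, _, _, σ, rfl⟩ := h'
  exact ⟨TensorProduct ℂ V W, _, _, inferInstance, tprod ρ σ, (char_tensor ρ σ).symm⟩

theorem IsChar.one : IsChar G 1 := by
  refine ⟨ℂ, _, _, inferInstance, Representation.trivial ℂ G ℂ, ?_⟩
  ext g
  show (1 : ℂ) = LinearMap.trace ℂ ℂ (Representation.trivial ℂ G ℂ g)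
  have : Representation.trivial ℂ G ℂ g = 1 := by
    ext; simp
  rw [this, LinearMap.trace_one]
  simp

theorem IsChar.zero : IsChar G 0 := by
  refine ⟨PUnit, _, _, inferInstance, Representation.trivial ℂ G PUnit, ?_⟩
  ext g
  show (0 : ℂ) = LinearMap.trace ℂ PUnit (Representation.trivial ℂ G PUnit g)
  have : Representation.trivial ℂ G PUnit g = 0 := Subsingleton.elim _ _
  rw [this, map_zero]

theorem IsChar.comp {H : Type} [Group H] {χ : G → ℂ} (h : IsChar G χ) (f : H →* G) :
    IsChar H (fun x => χ (f x)) := by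
  obtain ⟨V, _, _, _, ρ, rfl⟩ := h
  exact ⟨V, _, _, inferInstance, ρ.comp f, rfl⟩

theorem IsChar.conj_eq {χ : G → ℂ} (h : IsChar G χ) {g g' : G} (hg : IsConj g g') : χ g = χ g' := by
  obtain ⟨V, _, _, _, ρ, rfl⟩ := h
  obtain ⟨c, rfl⟩ := isConj_iff.1 hg
  rw [char_conj]

end Chars

section Decomp

variable {G : Type} [Group G]

/-- complementary subrepresentations: the character is the sum -/
theorem character_of_isCompl {V : Type} [AddCommGroup V] [Module ℂ V] [FiniteDimensional ℂ V]
    (ρ : Representation ℂ G V) (p q : Subrepresentation ρ) (h : IsCompl p.toSubmodule q.toSubmodule) :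
    ρ.character = p.toRepresentation.character + q.toRepresentation.character := by
  ext g
  have h1 : ρ g = (Submodule.prodEquivOfIsCompl p.toSubmodule q.toSubmodule h).conj
      ((p.toRepresentation g).prodMap (q.toRepresentation g)) := by
    apply LinearMap.ext
    intro v
    obtain ⟨⟨x, y⟩, rfl⟩ := (Submodule.prodEquivOfIsCompl p.toSubmodule q.toSubmodule h).surjective v
    rw [LinearEquiv.conj_apply_apply, LinearEquiv.symm_apply_apply]
    simp only [Submodule.coe_prodEquivOfIsCompl', LinearMap.prodMap_apply, map_add]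
    rfl
  show LinearMap.trace ℂ V (ρ g) = _
  rw [h1, LinearMap.trace_conj', LinearMap.trace_prodMap']
  rfl

theorem isCompl_sub [Finite G] {V : Type} [AddCommGroup V] [Module ℂ V]
    (ρ : Representation ℂ G V) (p : Subrepresentation ρ) :
    ∃ q : Subrepresentation ρ, IsCompl p.toSubmodule q.toSubmodule := by
  classical
  have hne : NeZero (Nat.card G : ℂ) := ⟨by
    have := Nat.card_pos (α := G)
    exact_mod_cast this.ne'⟩
  have h1 : IsSemisimpleModule (MonoidAlgebra ℂ G) ρ.asModule := inferInstance
  have h2 : ComplementedLattice (Subrepresentation ρ) :=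
    (isSemisimpleRepresentation_iff_isSemisimpleModule_asModule ρ).2 h1
  obtain ⟨q, hq⟩ := h2.exists_isCompl p
  refine ⟨q, ?_⟩
  rw [isCompl_iff, disjoint_iff, codisjoint_iff] at hq ⊢
  constructor
  · have := congrArg Subrepresentation.toSubmodule hq.1
    rwa [Subrepresentation.toSubmodule_inf] at this
  · have := congrArg Subrepresentation.toSubmodule hq.2
    rwa [Subrepresentation.toSubmodule_sup] at this

/-- an irreducible representation gives a simple object -/
theorem simple_of_irreducible [Finite G] {V : Type} [AddCommGroup V] [Module ℂ V] [FiniteDimensional ℂ V]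
    (ρ : Representation ℂ G V) (h : IsIrreducible ρ) : CategoryTheory.Simple (FDRep.of ρ) := by
  classical
  letI := Fintype.ofFinite G
  have hne : NeZero (Nat.card G : ℂ) := ⟨by
    have := Nat.card_pos (α := G)
    exact_mod_cast this.ne'⟩
  have := invertibleOfNonzero (NeZero.ne (Nat.card G : ℂ))
  rw [FDRep.simple_iff_char_is_norm_one]
  have h1 := card_inv_mul_sum_char_mul_char_eq_finrank ρ ρ
  rw [IsIrreducible.finrank_intertwiningMap_self ρ] at h1
  have h2 : (Nat.card G : ℂ) ≠ 0 := NeZero.ne _
  have h3 : ∑ g : G, ρ.character g * ρ.character g⁻¹ = (Nat.card G : ℂ) := by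
    field_simp at h1
    simpa using h1
  exact h3

/-- induction principle -/
theorem IsChar.induction [Finite G] (P : (G → ℂ) → Prop) (h0 : P 0)
    (hadd : ∀ χ ψ, P χ → P ψ → P (χ + ψ))
    (hs : ∀ V : FDRep ℂ G, CategoryTheory.Simple V → P V.character) :
    ∀ χ, IsChar G χ → P χ := by
  have key : ∀ n : ℕ, ∀ (V : Type) [AddCommGroup V] [Module ℂ V] [FiniteDimensional ℂ V]
      (ρ : Representation ℂ G V), Module.finrank ℂ V = n → P ρ.character := by
    intro n
    induction n using Nat.strong_induction_on with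
    | _ n ih =>
      intro V _ _ _ ρ hn
      by_cases hV : Subsingleton V
      · have : ρ.character = 0 := by
          ext g
          show LinearMap.trace ℂ V (ρ g) = 0
          have : ρ g = 0 := Subsingleton.elim _ _
          rw [this, map_zero]
        rw [this]
        exact h0
      rw [not_subsingleton_iff_nontrivial] at hV
      by_cases hirr : IsIrreducible ρ
      · exact hs _ (simple_of_irreducible ρ hirr)
      · have hnt : Nontrivial (Subrepresentation ρ) := by
          refine ⟨⊥, ⊤, fun h => ?_⟩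
          have := congrArg Subrepresentation.toSubmodule h
          exact bot_ne_top (α := Submodule ℂ V) this
        have : ∃ p : Subrepresentation ρ, p ≠ ⊥ ∧ p ≠ ⊤ := by
          by_contra hcon
          push Not at hcon
          apply hirr
          refine { exists_pair_ne := hnt.exists_pair_ne, eq_bot_or_eq_top := fun p => ?_ }
          by_cases hp : p = ⊥
          · exact Or.inl hp
          · exact Or.inr (hcon p hp)
        obtain ⟨p, hp0, hp1⟩ := this
        obtain ⟨q, hq⟩ := isCompl_sub ρ p
        rw [character_of_isCompl ρ p q hq]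
        have hsum := Submodule.finrank_add_eq_of_isCompl hq
        have hp0' : p.toSubmodule ≠ ⊥ := fun h => hp0 (Subrepresentation.toSubmodule_injective h)
        have hp1' : p.toSubmodule ≠ ⊤ := fun h => hp1 (Subrepresentation.toSubmodule_injective h)
        have hpos : 0 < Module.finrank ℂ p.toSubmodule := by
          rw [Module.finrank_pos_iff]
          exact Submodule.nontrivial_iff_ne_bot.2 hp0'
        have hlt : Module.finrank ℂ p.toSubmodule < Module.finrank ℂ V :=
          Submodule.finrank_lt (lt_top_iff_ne_top.2 hp1').ne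
        refine hadd _ _ (ih _ (by omega) _ _ rfl) (ih _ (by omega) _ _ rfl)
  rintro χ ⟨V, _, _, _, ρ, rfl⟩
  exact key _ V ρ rfl

theorem isChar_FDRep (V : FDRep ℂ G) : IsChar G V.character := ⟨V, _, _, inferInstance, V.ρ, rfl⟩

end Decomp

variable {G H : Type} [Group G] [Group H]

/-- from the frozen hypothesis -/
theorem TRel.of_table [Finite G] [Finite H] (e : ConjClasses G ≃ ConjClasses H)
    (h1 : ∀ V : FDRep ℂ G, CategoryTheory.Simple V → ∃ W : FDRep ℂ H, CategoryTheory.Simple W ∧
      ∀ (g : G) (h : H), e (ConjClasses.mk g) = ConjClasses.mk h → V.character g = W.character h)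
    (h2 : ∀ W : FDRep ℂ H, CategoryTheory.Simple W → ∃ V : FDRep ℂ G, CategoryTheory.Simple V ∧
      ∀ (g : G) (h : H), e (ConjClasses.mk g) = ConjClasses.mk h → V.character g = W.character h) :
    TRel G H (fun g h => e (ConjClasses.mk g) = ConjClasses.mk h) where
  left g := by
    obtain ⟨h, hh⟩ := ConjClasses.exists_rep (e (ConjClasses.mk g))
    exact ⟨h, hh.symm⟩
  right h := by
    obtain ⟨g, hg⟩ := ConjClasses.exists_rep (e.symm (ConjClasses.mk h))
    refine ⟨g, ?_⟩
    show e (ConjClasses.mk g) = ConjClasses.mk h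
    rw [hg, Equiv.apply_symm_apply]
  conj g g' h h' hr hg hh := by
    show e (ConjClasses.mk g') = ConjClasses.mk h'
    rw [← ConjClasses.mk_eq_mk_iff_isConj.2 hg, ← ConjClasses.mk_eq_mk_iff_isConj.2 hh]
    exact hr
  fwd := by
    apply IsChar.induction
    · exact ⟨0, IsChar.zero, fun _ _ _ => rfl⟩
    · rintro χ ψ ⟨χ', hχ, h⟩ ⟨ψ', hψ, h'⟩
      exact ⟨χ' + ψ', hχ.add hψ, fun g k hk => by simp [h g k hk, h' g k hk]⟩
    · intro V hV
      obtain ⟨W, hW, h⟩ := h1 V hV
      exact ⟨W.character, isChar_FDRep W, h⟩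
  bwd := by
    apply IsChar.induction
    · exact ⟨0, IsChar.zero, fun _ _ _ => rfl⟩
    · rintro χ ψ ⟨χ', hχ, h⟩ ⟨ψ', hψ, h'⟩
      exact ⟨χ' + ψ', hχ.add hψ, fun g k hk => by simp [h g k hk, h' g k hk]⟩
    · intro V hV
      obtain ⟨W, hW, h⟩ := h2 V hV
      exact ⟨W.character, isChar_FDRep W, h⟩

theorem TRel.symm {R : G → H → Prop} (hR : TRel G H R) : TRel H G (fun h g => R g h) where
  left := hR.right
  right := hR.left
  conj h h' g g' hr hh hg := hR.conj g g' h h' hr hg hh
  fwd ψ hψ := by
    obtain ⟨χ, hχ, h⟩ := hR.bwd ψ hψ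
    exact ⟨χ, hχ, fun x y hxy => (h y x hxy).symm⟩
  bwd χ hχ := by
    obtain ⟨ψ, hψ, h⟩ := hR.fwd χ hχ
    exact ⟨ψ, hψ, fun x y hxy => (h y x hxy).symm⟩

end Pool.Syl2
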