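import Pool.Agent.Syl2.Tab1

/-! # Table facts, part 2: elements of finite order, central elements, separation of classes -/

set_option autoImplicit false

namespace Pool.Syl2

open Representation Module Polynomial

section FiniteOrder

variable {V : Type} [AddCommGroup V] [Module ℂ V] [FiniteDimensional ℂ V]

/-- Traces of an operator of finite order and of its inverse. -/
theorem trace_finite_order (T S : Module.End ℂ V) (m : ℕ) (hm : 0 < m) (hT : T ^ m = 1)
    (hS : S * T = 1) :
    ∃ s : Finset ℂ, (∀ l ∈ s, ‖l‖ = 1) ∧ (∀ l, l ∉ s → T.eigenspace l = ⊥) ∧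
      LinearMap.trace ℂ V T = ∑ l ∈ s, l * (finrank ℂ (T.eigenspace l) : ℂ) ∧
      LinearMap.trace ℂ V S = ∑ l ∈ s, (starRingEnd ℂ l) * (finrank ℂ (T.eigenspace l) : ℂ) ∧
      ((finrank ℂ V : ℕ) : ℂ) = ∑ l ∈ s, (finrank ℂ (T.eigenspace l) : ℂ) ∧
      ⨆ l : ℂ, T.eigenspace l = ⊤ := by
  classical
  have hmC : (m : ℂ) ≠ 0 := by exact_mod_cast hm.ne'
  have hss : T.IsSemisimple := by
    refine Module.End.isSemisimple_of_squarefree_aeval_eq_zero (p := X ^ m - 1) ?_ ?_
    · exact (X_pow_sub_one_separable_iff.2 hmC).squarefree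
    · simp [hT]
  have htop := hss.iSup_eigenspace_eq_top
  have hind := T.eigenspaces_iSupIndep
  have hint : DirectSum.IsInternal T.eigenspace :=
    DirectSum.isInternal_submodule_of_iSupIndep_of_iSup_eq_top hind htop
  have hfin : {i | T.eigenspace i ≠ ⊥}.Finite := WellFoundedGT.finite_ne_bot_of_iSupIndep hind
  have hT' : ∀ l : ℂ, Set.MapsTo T (T.eigenspace l) (T.eigenspace l) := by
    intro l v hv
    rw [SetLike.mem_coe, Module.End.mem_eigenspace_iff] at hv ⊢
    rw [hv, map_smul, hv]
  have hST : ∀ v, S (T v) = v := fun v => by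
    have := congrArg (fun f : Module.End ℂ V => f v) hS
    simpa using this
  have hev : ∀ l : ℂ, T.eigenspace l ≠ ⊥ → l ^ m = 1 := by
    intro l hl
    obtain ⟨v, hv, hv0⟩ := (Submodule.ne_bot_iff _).1 hl
    rw [Module.End.mem_eigenspace_iff] at hv
    have h1 : ∀ k : ℕ, (T ^ k) v = l ^ k • v := by
      intro k
      induction k with
      | zero => simp
      | succ k ih => rw [pow_succ', Module.End.mul_apply, ih, map_smul, hv, smul_smul, pow_succ]
    have h2 := h1 m
    rw [hT, Module.End.one_apply] at h2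
    have h3 : (1 - l ^ m) • v = 0 := by rw [sub_smul, one_smul, ← h2, sub_self]
    rcases smul_eq_zero.1 h3 with h | h
    · exact (sub_eq_zero.1 h).symm
    · exact absurd h hv0
  have hnorm : ∀ l : ℂ, T.eigenspace l ≠ ⊥ → ‖l‖ = 1 := fun l hl =>
    Complex.norm_eq_one_of_pow_eq_one (hev l hl) hm.ne'
  have hSl : ∀ l : ℂ, ∀ v ∈ T.eigenspace l, S v = (starRingEnd ℂ l) • v := by
    intro l v hv
    by_cases hl : T.eigenspace l = ⊥
    · have : v = 0 := by
        rw [hl] at hv
        simpa using hv
      rw [this]; simp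
    · have hn := hnorm l hl
      rw [Module.End.mem_eigenspace_iff] at hv
      have h1 : (starRingEnd ℂ l) * l = 1 := by
        rw [mul_comm, Complex.mul_conj, Complex.normSq_eq_norm_sq, hn]
        simp
      have h2 := hST v
      rw [hv, map_smul] at h2
      calc S v = ((starRingEnd ℂ l) * l) • S v := by rw [h1, one_smul]
        _ = (starRingEnd ℂ l) • (l • S v) := by rw [smul_smul]
        _ = _ := by rw [h2]
  have hS' : ∀ l : ℂ, Set.MapsTo S (T.eigenspace l) (T.eigenspace l) := by
    intro l v hv
    rw [SetLike.mem_coe, hSl l v hv]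
    exact Submodule.smul_mem _ _ hv
  have h1' : ∀ l : ℂ, Set.MapsTo (1 : Module.End ℂ V) (T.eigenspace l) (T.eigenspace l) := by
    intro l v hv
    simpa using hv
  refine ⟨hfin.toFinset, ?_, ?_, ?_, ?_, ?_, htop⟩
  · intro l hl
    exact hnorm l (by simpa using hl)
  · intro l hl
    by_contra h
    exact hl (by simpa using h)
  · rw [LinearMap.trace_eq_sum_trace_restrict' hint hfin hT']
    apply Finset.sum_congr rfl
    intro l _
    have : T.restrict (hT' l) = l • (1 : Module.End ℂ (T.eigenspace l)) := by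
      ext v
      have := Module.End.mem_eigenspace_iff.1 v.2
      simpa using this
    rw [this, map_smul, LinearMap.trace_one, smul_eq_mul]
  · rw [LinearMap.trace_eq_sum_trace_restrict' hint hfin hS']
    apply Finset.sum_congr rfl
    intro l _
    have : S.restrict (hS' l) = (starRingEnd ℂ l) • (1 : Module.End ℂ (T.eigenspace l)) := by
      ext v
      simpa using hSl l v v.2
    rw [this, map_smul, LinearMap.trace_one, smul_eq_mul]
  · have h := LinearMap.trace_eq_sum_trace_restrict' hint hfin h1'
    rw [LinearMap.trace_one] at h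
    rw [h]
    apply Finset.sum_congr rfl
    intro l _
    have : (1 : Module.End ℂ V).restrict (h1' l) = (1 : Module.End ℂ (T.eigenspace l)) := by
      ext v
      simp
    rw [this, LinearMap.trace_one]

theorem trace_inv_eq_conj (T S : Module.End ℂ V) (m : ℕ) (hm : 0 < m) (hT : T ^ m = 1)
    (hS : S * T = 1) : LinearMap.trace ℂ V S = starRingEnd ℂ (LinearMap.trace ℂ V T) := by
  obtain ⟨s, _, _, h1, h2, _⟩ := trace_finite_order T S m hm hT hS
  rw [h1, h2, map_sum]
  apply Finset.sum_congr rfl
  intro l _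
  rw [map_mul, map_natCast]

theorem eq_one_of_trace (T S : Module.End ℂ V) (m : ℕ) (hm : 0 < m) (hT : T ^ m = 1)
    (hS : S * T = 1) (htr : LinearMap.trace ℂ V T = finrank ℂ V) : T = 1 := by
  obtain ⟨s, hn, hz, h1, _, h3, htop⟩ := trace_finite_order T S m hm hT hS
  have h4 : ∑ l ∈ s, (1 - l) * (finrank ℂ (T.eigenspace l) : ℂ) = 0 := by
    have : ∑ l ∈ s, (1 - l) * (finrank ℂ (T.eigenspace l) : ℂ) =
        ∑ l ∈ s, (finrank ℂ (T.eigenspace l) : ℂ) - ∑ l ∈ s, l * (finrank ℂ (T.eigenspace l) : ℂ) := by
      rw [← Finset.sum_sub_distrib]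
      apply Finset.sum_congr rfl
      intro l _
      ring
    rw [this, ← h1, ← h3, htr, sub_self]
  have h5 : ∑ l ∈ s, (1 - l.re) * (finrank ℂ (T.eigenspace l) : ℝ) = 0 := by
    have := congrArg Complex.re h4
    rw [Complex.re_sum] at this
    simpa using this
  have hre : ∀ l ∈ s, l.re ≤ 1 := fun l hl => by
    have := Complex.re_le_norm l
    rw [hn l hl] at this
    exact this
  have h6 := (Finset.sum_eq_zero_iff_of_nonneg (fun l hl =>
    mul_nonneg (by linarith [hre l hl]) (Nat.cast_nonneg _))).1 h5
  have h7 : ∀ l : ℂ, l ≠ 1 → T.eigenspace l = ⊥ := by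
    intro l hl
    by_cases hs : l ∈ s
    · rcases mul_eq_zero.1 (h6 l hs) with h | h
      · exfalso
        apply hl
        have hre1 : l.re = 1 := by linarith
        have hnl := hn l hs
        have : l.im = 0 := by
          have h8 : l.re ^ 2 + l.im ^ 2 = 1 := by
            have := Complex.normSq_eq_norm_sq l
            rw [hnl, Complex.normSq_apply] at this
            nlinarith
          rw [hre1] at h8
          have : l.im ^ 2 = 0 := by linarith
          simpa using this
        exact Complex.ext (by simpa using hre1) (by simpa using this)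
      · have : finrank ℂ (T.eigenspace l) = 0 := by exact_mod_cast h
        exact Submodule.finrank_eq_zero.1 this
    · exact hz l hs
  have h8 : T.eigenspace 1 = ⊤ := by
    rw [← htop]
    apply le_antisymm (le_iSup _ _)
    apply iSup_le
    intro l
    by_cases hl : l = 1
    · rw [hl]
    · rw [h7 l hl]; exact bot_le
  ext v
  have : v ∈ T.eigenspace 1 := by rw [h8]; trivial
  simpa using Module.End.mem_eigenspace_iff.1 this

end FiniteOrder

section Rep

variable {G : Type} [Group G] [Finite G]

theorem rho_pow_card {V : Type} [AddCommGroup V] [Module ℂ V] (ρ : Representation ℂ G V) (g : G) :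
    ρ g ^ Nat.card G = 1 := by
  rw [← map_pow, pow_card_eq_one', map_one]

theorem character_inv {V : Type} [AddCommGroup V] [Module ℂ V] [FiniteDimensional ℂ V]
    (ρ : Representation ℂ G V) (g : G) : ρ.character g⁻¹ = starRingEnd ℂ (ρ.character g) := by
  refine trace_inv_eq_conj (ρ g) (ρ g⁻¹) (Nat.card G) Nat.card_pos (rho_pow_card ρ g) ?_
  rw [← map_mul, inv_mul_cancel, map_one]

theorem IsChar.inv {χ : G → ℂ} (h : IsChar G χ) (g : G) : χ g⁻¹ = starRingEnd ℂ (χ g) := by
  obtain ⟨V, _, _, _, ρ, rfl⟩ := h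
  exact character_inv ρ g

theorem character_eq_finrank_iff {V : Type} [AddCommGroup V] [Module ℂ V] [FiniteDimensional ℂ V]
    (ρ : Representation ℂ G V) (g : G) : ρ.character g = finrank ℂ V ↔ ρ g = 1 := by
  constructor
  · intro h
    refine eq_one_of_trace (ρ g) (ρ g⁻¹) (Nat.card G) Nat.card_pos (rho_pow_card ρ g) ?_ h
    rw [← map_mul, inv_mul_cancel, map_one]
  · intro h
    show LinearMap.trace ℂ V (ρ g) = _
    rw [h, LinearMap.trace_one]

end Rep

end Pool.Syl2
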