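import Pool.Agent.Syl2.Tab2

/-! # Table facts, part 3: permutation representations, characters separate classes -/

set_option autoImplicit false

namespace Pool.Syl2

open Representation Module

section Perm

variable {G : Type} [Group G] {X : Type} [MulAction G X]

/-- permutation representation on the functions on `X` -/
def permRep (G X : Type) [Group G] [MulAction G X] : Representation ℂ G (X → ℂ) where
  toFun g := { toFun := fun f x => f (g⁻¹ • x), map_add' := fun _ _ => rfl, map_smul' := fun _ _ => rfl }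
  map_one' := by ext f x; simp
  map_mul' g h := by
    apply LinearMap.ext
    intro f
    funext x
    show f ((g * h)⁻¹ • x) = f (h⁻¹ • (g⁻¹ • x))
    rw [mul_inv_rev, mul_smul]

theorem permRep_apply (g : G) (f : X → ℂ) (x : X) : permRep G X g f x = f (g⁻¹ • x) := rfl

theorem trace_fun [Fintype X] [DecidableEq X] (T : (X → ℂ) →ₗ[ℂ] (X → ℂ)) :
    LinearMap.trace ℂ (X → ℂ) T = ∑ x, T (Pi.single x 1) x := by
  rw [LinearMap.trace_eq_matrix_trace ℂ (Pi.basisFun ℂ X) T, Matrix.trace]
  apply Finset.sum_congr rfl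
  intro x _
  rw [Matrix.diag_apply, LinearMap.toMatrix_apply]
  simp

theorem character_permRep [Fintype X] [DecidableEq X] (g : G) :
    (permRep G X).character g = ((Finset.univ.filter (fun x : X => g • x = x)).card : ℂ) := by
  show LinearMap.trace ℂ (X → ℂ) (permRep G X g) = _
  rw [trace_fun, Finset.card_filter, Nat.cast_sum]
  apply Finset.sum_congr rfl
  intro x _
  rw [permRep_apply]
  by_cases h : g • x = x
  · rw [if_pos h]
    have : g⁻¹ • x = x := by rw [inv_smul_eq_iff, h]
    rw [this]
    simp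
  · rw [if_neg h]
    have : g⁻¹ • x ≠ x := by
      intro h'
      apply h
      rw [inv_smul_eq_iff] at h'
      exact h'.symm
    simp [this]

end Perm

section Sep

variable {G : Type} [Group G] [Fintype G]

/-- the operator `∑ a(g) ρ(g)` -/
noncomputable def opr {V : Type} [AddCommGroup V] [Module ℂ V] (ρ : Representation ℂ G V) (a : G → ℂ) :
    Module.End ℂ V := ∑ g, a g • ρ g

theorem opr_apply {V : Type} [AddCommGroup V] [Module ℂ V] (ρ : Representation ℂ G V) (a : G → ℂ)
    (v : V) : opr ρ a v = ∑ g, a g • ρ g v := by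
  unfold opr
  rw [LinearMap.sum_apply]
  rfl

theorem opr_comm {V : Type} [AddCommGroup V] [Module ℂ V] (ρ : Representation ℂ G V) (a : G → ℂ)
    (ha : ∀ g c, a (c * g * c⁻¹) = a g) (c : G) : ρ c * opr ρ a = opr ρ a * ρ c := by
  have h1 : ρ c * opr ρ a * ρ c⁻¹ = opr ρ a := by
    unfold opr
    rw [Finset.mul_sum, Finset.sum_mul]
    have : ∀ g, ρ c * (a g • ρ g) * ρ c⁻¹ = a (c * g * c⁻¹) • ρ (c * g * c⁻¹) := by
      intro g
      rw [ha, mul_smul_comm, smul_mul_assoc, ← map_mul, ← map_mul]
    simp_rw [this]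
    exact Fintype.sum_equiv (MulAut.conj c).toEquiv _ _ (fun g => rfl)
  calc ρ c * opr ρ a = ρ c * opr ρ a * ρ c⁻¹ * ρ c := by
        rw [mul_assoc _ (ρ c⁻¹), ← map_mul, inv_mul_cancel, map_one, mul_one]
    _ = _ := by rw [h1]

theorem opr_comm_opr {V : Type} [AddCommGroup V] [Module ℂ V] (ρ : Representation ℂ G V) (a b : G → ℂ)
    (ha : ∀ g c, a (c * g * c⁻¹) = a g) : Commute (opr ρ a) (opr ρ b) := by
  show opr ρ a * opr ρ b = opr ρ b * opr ρ a
  conv_lhs => rw [show opr ρ b = ∑ g, b g • ρ g from rfl]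
  conv_rhs => rw [show opr ρ b = ∑ g, b g • ρ g from rfl]
  rw [Finset.mul_sum, Finset.sum_mul]
  apply Finset.sum_congr rfl
  intro g _
  rw [mul_smul_comm, smul_mul_assoc, opr_comm ρ a ha g]

/-- completeness: a class function orthogonal to all characters is zero -/
theorem classfun_eq_zero (a : G → ℂ) (ha : ∀ g c, a (c * g * c⁻¹) = a g)
    (h : ∀ χ, IsChar G χ → ∑ g, a g * χ g = 0) : a = 0 := by
  classical
  let b : G → ℂ := fun g => starRingEnd ℂ (a g⁻¹)
  have hb : ∀ g c, b (c * g * c⁻¹) = b g := by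
    intro g c
    show starRingEnd ℂ (a (c * g * c⁻¹)⁻¹) = starRingEnd ℂ (a g⁻¹)
    rw [show (c * g * c⁻¹)⁻¹ = c * g⁻¹ * c⁻¹ by group, ha]
  let ρ : Representation ℂ G (G → ℂ) := permRep G G
  have hcomm : Commute (opr ρ b) (opr ρ a) := opr_comm_opr ρ b a hb
  have h0 : LinearMap.trace ℂ (G → ℂ) (opr ρ a ∘ₗ opr ρ b) = 0 := by
    refine LinearMap.trace_comp_eq_zero_of_commute_of_trace_restrict_eq_zero hcomm
      (Module.End.iSup_maxGenEigenspace_eq_top _) ?_
    intro μ
    set E := (opr ρ b).maxGenEigenspace μ with hE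
    have hEinv : ∀ g, ∀ v ∈ E, ρ g v ∈ E := fun g v hv =>
      Module.End.mapsTo_maxGenEigenspace_of_comm (opr_comm ρ b hb g).symm μ hv
    let p : Subrepresentation ρ := ⟨E, fun g v hv => hEinv g v hv⟩
    have h1 := h _ (isChar_character p.toRepresentation)
    rw [← h1]
    have h2 : (opr ρ a).restrict (Module.End.mapsTo_maxGenEigenspace_of_comm hcomm μ) =
        ∑ g, a g • p.toRepresentation g := by
      apply LinearMap.ext
      intro v
      apply Subtype.ext
      rw [LinearMap.sum_apply]
      have h3 : ((∑ g, (a g • p.toRepresentation g) v : E) : G → ℂ) =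
          ∑ g, (((a g • p.toRepresentation g) v : E) : G → ℂ) := map_sum E.subtype _ _
      refine Eq.trans ?_ h3.symm
      exact opr_apply ρ a v
    rw [h2, map_sum]
    apply Finset.sum_congr rfl
    intro g _
    rw [map_smul]
    rfl
  have h3 : LinearMap.trace ℂ (G → ℂ) (opr ρ a ∘ₗ opr ρ b) =
      ∑ x, ∑ y, a x * (b y * ρ.character (x * y)) := by
    show LinearMap.trace ℂ (G → ℂ) (opr ρ a * opr ρ b) = _
    unfold opr
    rw [Finset.sum_mul, map_sum]
    apply Finset.sum_congr rfl
    intro x _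
    rw [Finset.mul_sum, map_sum]
    apply Finset.sum_congr rfl
    intro y _
    rw [smul_mul_assoc, mul_smul_comm, ← map_mul, map_smul, map_smul]
    rfl
  have h4 : ∀ x : G, ρ.character x = if x = 1 then (Fintype.card G : ℂ) else 0 := by
    intro x
    rw [character_permRep]
    by_cases hx : x = 1
    · rw [if_pos hx, hx]
      simp
    · rw [if_neg hx]
      have : Finset.univ.filter (fun y : G => x • y = y) = ∅ := by
        apply Finset.filter_false_of_mem
        intro y _ hy
        apply hx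
        exact mul_eq_right.1 hy
      rw [this]
      simp
  have h5 : ∑ x, ∑ y, a x * (b y * ρ.character (x * y)) =
      (Fintype.card G : ℂ) * ∑ x, ((‖a x‖ ^ 2 : ℝ) : ℂ) := by
    rw [Finset.mul_sum]
    apply Finset.sum_congr rfl
    intro x _
    rw [Finset.sum_eq_single x⁻¹]
    · rw [h4, mul_inv_cancel, if_pos rfl]
      show a x * (starRingEnd ℂ (a x⁻¹⁻¹) * _) = _
      rw [inv_inv, ← mul_assoc, Complex.mul_conj, Complex.normSq_eq_norm_sq]
      ring
    · intro y _ hy
      rw [h4, if_neg, mul_zero, mul_zero]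
      intro hxy
      exact hy (eq_inv_of_mul_eq_one_right hxy)
    · intro hx
      exact absurd (Finset.mem_univ _) hx
  rw [h3, h5] at h0
  have hcard : (Fintype.card G : ℂ) ≠ 0 := by
    exact_mod_cast Fintype.card_ne_zero
  have h6 : ∑ x, ((‖a x‖ ^ 2 : ℝ) : ℂ) = 0 := by
    rcases mul_eq_zero.1 h0 with h' | h'
    · exact absurd h' hcard
    · exact h'
  have h7 : ∑ x, ‖a x‖ ^ 2 = 0 := by exact_mod_cast h6
  have h8 := (Finset.sum_eq_zero_iff_of_nonneg (fun x _ => by positivity)).1 h7
  funext x
  have := h8 x (Finset.mem_univ x)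
  simpa using this

/-- characters separate the classes -/
theorem isConj_of_char {g g' : G} (h : ∀ χ, IsChar G χ → χ g = χ g') : IsConj g g' := by
  classical
  by_contra hne
  let C : G → Finset G := fun c => Finset.univ.filter (fun x => IsConj c x)
  have hC : ∀ c, (C c).card ≠ 0 := fun c => by
    have : c ∈ C c := Finset.mem_filter.2 ⟨Finset.mem_univ _, IsConj.refl c⟩
    exact Finset.card_ne_zero_of_mem this
  let a : G → ℂ := fun x => (if IsConj g x then ((C g).card : ℂ)⁻¹ else 0) -
    (if IsConj g' x then ((C g').card : ℂ)⁻¹ else 0)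
  have hcj : ∀ (c d x : G), IsConj d (c * x * c⁻¹) ↔ IsConj d x := by
    intro c d x
    have : IsConj (c * x * c⁻¹) x := (isConj_iff.2 ⟨c, rfl⟩ : IsConj x (c * x * c⁻¹)).symm
    exact ⟨fun h => h.trans this, fun h => h.trans this.symm⟩
  have ha : ∀ x c, a (c * x * c⁻¹) = a x := by
    intro x c
    simp only [a, hcj]
  have hsum : ∀ χ, IsChar G χ → ∀ d : G, ∑ x, (if IsConj d x then ((C d).card : ℂ)⁻¹ else 0) * χ x = χ d := by
    intro χ hχ d
    have h1 : ∀ x, (if IsConj d x then ((C d).card : ℂ)⁻¹ else 0) * χ x =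
        if IsConj d x then ((C d).card : ℂ)⁻¹ * χ d else 0 := by
      intro x
      split_ifs with hx
      · rw [hχ.conj_eq hx]
      · ring
    simp_rw [h1]
    rw [← Finset.sum_filter, Finset.sum_const, nsmul_eq_mul]
    have : ((Finset.univ.filter (fun x => IsConj d x)).card : ℂ) ≠ 0 := by exact_mod_cast hC d
    show ((Finset.univ.filter (fun x => IsConj d x)).card : ℂ) *
      (((Finset.univ.filter (fun x => IsConj d x)).card : ℂ)⁻¹ * χ d) = χ d
    field_simp
  have h0 := classfun_eq_zero a ha (fun χ hχ => by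
    have : ∀ x, a x * χ x = (if IsConj g x then ((C g).card : ℂ)⁻¹ else 0) * χ x -
        (if IsConj g' x then ((C g').card : ℂ)⁻¹ else 0) * χ x := fun x => by
      simp only [a]; ring
    simp_rw [this]
    rw [Finset.sum_sub_distrib, hsum χ hχ g, hsum χ hχ g', h χ hχ, sub_self])
  have h1 := congrFun h0 g
  have h2 : ¬ IsConj g' g := fun h => hne h.symm
  simp only [a, h2, if_false, sub_zero, Pi.zero_apply, IsConj.refl, if_true, inv_eq_zero] at h1
  exact hC g (by exact_mod_cast h1)

end Sep

end Pool.Syl2
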