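import Pool.Agent.Syl2.Tab3

/-! # Table facts, part 4: classes, sums, sizes -/

set_option autoImplicit false

namespace Pool.Syl2

open Representation Module

section

variable {G : Type} [Group G] [Finite G]

theorem norm_character_le {V : Type} [AddCommGroup V] [Module ℂ V] [FiniteDimensional ℂ V]
    (ρ : Representation ℂ G V) (g : G) : ‖ρ.character g‖ ≤ finrank ℂ V := by
  obtain ⟨s, hn, _, h1, _, h3, _⟩ := trace_finite_order (ρ g) (ρ g⁻¹) (Nat.card G) Nat.card_pos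
    (rho_pow_card ρ g) (by rw [← map_mul, inv_mul_cancel, map_one])
  have h4 : (finrank ℂ V : ℝ) = ∑ l ∈ s, (finrank ℂ (Module.End.eigenspace (ρ g) l) : ℝ) := by
    have := congrArg Complex.re h3
    rw [Complex.re_sum] at this
    simpa using this
  show ‖LinearMap.trace ℂ V (ρ g)‖ ≤ _
  rw [h1, h4]
  refine (norm_sum_le _ _).trans (Finset.sum_le_sum ?_)
  intro l hl
  rw [norm_mul, hn l hl, one_mul]
  simp

theorem eq_one_of_all_rep {h : G} (H : ∀ (V : Type) [AddCommGroup V] [Module ℂ V]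
    [FiniteDimensional ℂ V] (ρ : Representation ℂ G V), ρ h = 1) : h = 1 := by
  classical
  have h1 := H (G → ℂ) (permRep G G)
  have h2 := congrArg (fun T : Module.End ℂ (G → ℂ) => T (Pi.single 1 1) h) h1
  simp only [Module.End.one_apply] at h2
  rw [permRep_apply, smul_eq_mul, inv_mul_cancel, Pi.single_eq_same] at h2
  by_contra hne
  rw [Pi.single_eq_of_ne hne] at h2
  exact one_ne_zero h2

end

variable {G H : Type} [Group G] [Group H] [Finite G] [Finite H] {R : G → H → Prop}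

theorem TRel.isConj_imp (hR : TRel G H R) {g g' : G} {h h' : H} (a : R g h) (b : R g' h')
    (hc : IsConj g g') : IsConj h h' := by
  letI := Fintype.ofFinite H
  apply isConj_of_char
  intro ψ hψ
  obtain ⟨χ, hχ, hm⟩ := hR.bwd ψ hψ
  rw [← hm g h a, ← hm g' h' b, hχ.conj_eq hc]

theorem TRel.isConj_iff (hR : TRel G H R) {g g' : G} {h h' : H} (a : R g h) (b : R g' h') :
    IsConj g g' ↔ IsConj h h' :=
  ⟨hR.isConj_imp a b, hR.symm.isConj_imp a b⟩

theorem TRel.eq_one (hR : TRel G H R) {h : H} (a : R 1 h) : h = 1 := by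
  apply eq_one_of_all_rep
  intro W _ _ _ σ
  obtain ⟨χ, ⟨V, _, _, _, ρ, hχ⟩, hm⟩ := hR.bwd _ (isChar_character σ)
  have h1 := hm 1 h a
  obtain ⟨g1, hg1⟩ := hR.right 1
  have h2 := hm g1 1 hg1
  rw [hχ, char_one] at h1
  rw [hχ, char_one] at h2
  have h3 := norm_character_le ρ g1
  rw [h2] at h3
  have h4 := norm_character_le σ h
  rw [← h1] at h4
  simp only [Complex.norm_natCast, Nat.cast_le] at h3 h4
  rw [← character_eq_finrank_iff σ h, ← h1, le_antisymm h4 h3]

theorem TRel.one (hR : TRel G H R) : R 1 1 := by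
  obtain ⟨h, hh⟩ := hR.left 1
  have := hR.eq_one hh
  rwa [this] at hh

theorem TRel.eq_one_iff (hR : TRel G H R) {g : G} {h : H} (a : R g h) : g = 1 ↔ h = 1 := by
  constructor
  · rintro rfl
    exact hR.eq_one a
  · rintro rfl
    exact hR.symm.eq_one a

theorem TRel.inv (hR : TRel G H R) {g : G} {h : H} (a : R g h) : R g⁻¹ h⁻¹ := by
  letI := Fintype.ofFinite H
  obtain ⟨h', hh'⟩ := hR.left g⁻¹
  refine hR.conj _ _ _ _ hh' (IsConj.refl _) ?_
  apply isConj_of_char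
  intro ψ hψ
  obtain ⟨χ, hχ, hm⟩ := hR.bwd ψ hψ
  rw [← hm _ _ hh', hχ.inv, hm _ _ a, hψ.inv]

theorem TRel.real_iff (hR : TRel G H R) {g : G} {h : H} (a : R g h) :
    IsConj g g⁻¹ ↔ IsConj h h⁻¹ := hR.isConj_iff a (hR.inv a)

/-- the average of a character is a natural number, and the invariants split off -/
theorem IsChar.split_inv {G : Type} [Group G] [Fintype G] {χ : G → ℂ} (h : IsChar G χ) :
    ∃ (m : ℕ) (χ' : G → ℂ), IsChar G χ' ∧ χ = (fun _ => (m : ℂ)) + χ' ∧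
      (Nat.card G : ℂ)⁻¹ * ∑ g, χ g = m := by
  obtain ⟨V, _, _, _, ρ, rfl⟩ := h
  have hne : (Nat.card G : ℂ) ≠ 0 := by
    have := Nat.card_pos (α := G)
    exact_mod_cast this.ne'
  have := invertibleOfNonzero hne
  let p : Subrepresentation ρ := ⟨invariants ρ, fun g v hv => by
    rw [mem_invariants] at hv ⊢
    intro g'
    rw [hv g, hv g']⟩
  obtain ⟨q, hq⟩ := isCompl_sub ρ p
  refine ⟨finrank ℂ (invariants ρ), q.toRepresentation.character, isChar_character _, ?_,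
    card_inv_mul_sum_char_eq_finrank ρ⟩
  rw [character_of_isCompl ρ p q hq]
  congr 1
  ext g
  have : p.toRepresentation g = 1 := by
    apply LinearMap.ext
    intro v
    apply Subtype.ext
    show ρ g v = v
    exact (mem_invariants ρ _).1 v.2 g
  show LinearMap.trace ℂ _ (p.toRepresentation g) = _
  rw [this, LinearMap.trace_one]

theorem TRel.avg_le (hR : TRel G H R) [Fintype G] [Fintype H] {χ : G → ℂ} {ψ : H → ℂ}
    (hχ : IsChar G χ) (hm : ∀ g h, R g h → χ g = ψ h) :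
    ∃ m k : ℕ, (Nat.card G : ℂ)⁻¹ * ∑ g, χ g = m ∧ (Nat.card H : ℂ)⁻¹ * ∑ h, ψ h = m + k := by
  obtain ⟨m, χ', hχ', he, ha⟩ := hχ.split_inv
  obtain ⟨ψ', hψ', hm'⟩ := hR.fwd χ' hχ'
  obtain ⟨k, _, _, _, hk⟩ := hψ'.split_inv
  refine ⟨m, k, ha, ?_⟩
  rw [← hk]
  have h1 : ∀ h, ψ h = m + ψ' h := by
    intro h
    obtain ⟨g, hg⟩ := hR.right h
    rw [← hm g h hg, he, Pi.add_apply, hm' g h hg]
  have hne : (Nat.card H : ℂ) ≠ 0 := by
    have := Nat.card_pos (α := H)
    exact_mod_cast this.ne'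
  simp_rw [h1]
  rw [Finset.sum_add_distrib, mul_add]
  congr 1
  simp only [Finset.sum_const, Finset.card_univ, nsmul_eq_mul, ← Nat.card_eq_fintype_card]
  field_simp

theorem TRel.avg_eq (hR : TRel G H R) [Fintype G] [Fintype H] {χ : G → ℂ} {ψ : H → ℂ}
    (hχ : IsChar G χ) (hψ : IsChar H ψ) (hm : ∀ g h, R g h → χ g = ψ h) :
    (Nat.card G : ℂ)⁻¹ * ∑ g, χ g = (Nat.card H : ℂ)⁻¹ * ∑ h, ψ h := by
  obtain ⟨m, k, h1, h2⟩ := hR.avg_le hχ hm
  obtain ⟨m', k', h3, h4⟩ := hR.symm.avg_le hψ (fun h g a => (hm g h a).symm)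
  rw [h1] at h4 ⊢
  rw [h2] at h3 ⊢
  have h5 : m + k = m' := by exact_mod_cast h3
  have h6 : m = m' + k' := by exact_mod_cast h4
  have : k = 0 := by omega
  rw [this]
  simp

/-- matched functions -/
def Fmat (R : G → H → Prop) (p : (G → ℂ) × (H → ℂ)) : Prop := ∀ g h, R g h → p.1 g = p.2 h

/-- the algebra of pairs spanned by matched characters -/
noncomputable def pairAlg (R : G → H → Prop) : Subalgebra ℂ ((G → ℂ) × (H → ℂ)) :=
  Algebra.adjoin ℂ {p | IsChar G p.1 ∧ IsChar H p.2 ∧ Fmat R p}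

omit [Finite G] [Finite H] in
theorem pairAlg_fmat {p : (G → ℂ) × (H → ℂ)} (hp : p ∈ pairAlg R) : Fmat R p := by
  refine Algebra.adjoin_induction (p := fun x _ => Fmat R x) ?_ ?_ ?_ ?_ hp
  · intro x hx
    exact hx.2.2
  · intro r g h _
    rfl
  · intro x y _ _ hx hy g h a
    simp only [Prod.fst_add, Prod.snd_add, Pi.add_apply, hx g h a, hy g h a]
  · intro x y _ _ hx hy g h a
    simp only [Prod.fst_mul, Prod.snd_mul, Pi.mul_apply, hx g h a, hy g h a]

theorem pairAlg_avg (hR : TRel G H R) [Fintype G] [Fintype H] {p : (G → ℂ) × (H → ℂ)}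
    (hp : p ∈ pairAlg R) :
    (Nat.card G : ℂ)⁻¹ * ∑ g, p.1 g = (Nat.card H : ℂ)⁻¹ * ∑ h, p.2 h := by
  let M : Submonoid ((G → ℂ) × (H → ℂ)) :=
    { carrier := {p | IsChar G p.1 ∧ IsChar H p.2 ∧ Fmat R p}
      one_mem' := ⟨IsChar.one, IsChar.one, fun _ _ _ => rfl⟩
      mul_mem' := fun {a b} ha hb => ⟨ha.1.mul hb.1, ha.2.1.mul hb.2.1, fun g h r => by
        simp only [Prod.fst_mul, Prod.snd_mul, Pi.mul_apply, ha.2.2 g h r, hb.2.2 g h r]⟩ }
  have h1 : p ∈ Subalgebra.toSubmodule (pairAlg R) := hp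
  clear hp
  unfold pairAlg at h1
  rw [show {p : (G → ℂ) × (H → ℂ) | IsChar G p.1 ∧ IsChar H p.2 ∧ Fmat R p} = (M : Set _) from rfl,
    Algebra.adjoin_eq_span, Submonoid.closure_eq] at h1
  induction h1 using Submodule.span_induction with
  | mem x hx => exact hR.avg_eq hx.1 hx.2.1 hx.2.2
  | zero => simp
  | add x y _ _ hx hy =>
    simp only [Prod.fst_add, Prod.snd_add, Pi.add_apply, Finset.sum_add_distrib, mul_add, hx, hy]
  | smul c x _ hx =>
    simp only [Prod.smul_fst, Prod.smul_snd, Pi.smul_apply, smul_eq_mul, ← Finset.mul_sum]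
    rw [mul_left_comm, hx, mul_left_comm]

/-- the indicator of a class is in the algebra -/
theorem exists_indicator (hR : TRel G H R) [Fintype G] (g0 : G) :
    ∃ p ∈ pairAlg R, (∀ g, IsConj g0 g → p.1 g = 1) ∧ (∀ g, ¬ IsConj g0 g → p.1 g = 0) := by
  classical
  have h1 : ∀ c : G, ¬ IsConj g0 c → ∃ p ∈ pairAlg R, (∀ g, IsConj g0 g → p.1 g = 1) ∧ p.1 c = 0 := by
    intro c hc
    have : ∃ χ, IsChar G χ ∧ χ g0 ≠ χ c := by
      by_contra hcon
      push Not at hcon
      exact hc (isConj_of_char hcon)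
    obtain ⟨χ, hχ, hne⟩ := this
    obtain ⟨ψ, hψ, hm⟩ := hR.fwd χ hχ
    have hmem : ((χ, ψ) : (G → ℂ) × (H → ℂ)) ∈ pairAlg R := Algebra.subset_adjoin ⟨hχ, hψ, hm⟩
    refine ⟨(χ g0 - χ c)⁻¹ • ((χ, ψ) - algebraMap ℂ _ (χ c)), ?_, ?_, ?_⟩
    · exact Subalgebra.smul_mem _ (Subalgebra.sub_mem _ hmem (Subalgebra.algebraMap_mem _ _)) _
    · intro g hg
      show (χ g0 - χ c)⁻¹ * (χ g - χ c) = 1
      rw [← hχ.conj_eq hg, inv_mul_cancel₀ (sub_ne_zero.2 hne)]
    · show (χ g0 - χ c)⁻¹ * (χ c - χ c) = 0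
      rw [sub_self, mul_zero]
  choose! f hf using h1
  refine ⟨∏ c ∈ Finset.univ.filter (fun c => ¬ IsConj g0 c), f c, ?_, ?_, ?_⟩
  · exact Subalgebra.prod_mem _ (fun c hc => (hf c (Finset.mem_filter.1 hc).2).1)
  · intro g hg
    rw [Prod.fst_prod, Finset.prod_apply]
    exact Finset.prod_eq_one (fun c hc => (hf c (Finset.mem_filter.1 hc).2).2.1 g hg)
  · intro g hg
    rw [Prod.fst_prod, Finset.prod_apply]
    exact Finset.prod_eq_zero (Finset.mem_filter.2 ⟨Finset.mem_univ g, hg⟩) (hf g hg).2.2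

theorem TRel.class_avg (hR : TRel G H R) {g : G} {h : H} (a : R g h) :
    (Nat.card G : ℂ)⁻¹ * ({x | IsConj g x}.ncard : ℂ) =
      (Nat.card H : ℂ)⁻¹ * ({x | IsConj h x}.ncard : ℂ) := by
  classical
  letI := Fintype.ofFinite G
  letI := Fintype.ofFinite H
  obtain ⟨p, hp, h1, h0⟩ := exists_indicator hR g
  have hm := pairAlg_fmat hp
  have h1' : ∀ x, IsConj h x → p.2 x = 1 := by
    intro x hx
    obtain ⟨y, hy⟩ := hR.right x
    rw [← hm y x hy]
    exact h1 y ((hR.isConj_iff a hy).2 hx)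
  have h0' : ∀ x, ¬ IsConj h x → p.2 x = 0 := by
    intro x hx
    obtain ⟨y, hy⟩ := hR.right x
    rw [← hm y x hy]
    exact h0 y (fun hc => hx ((hR.isConj_iff a hy).1 hc))
  have h2 := pairAlg_avg hR hp
  have e1 : ∑ g, p.1 g = ({x | IsConj g x}.ncard : ℂ) := by
    rw [← Finset.sum_filter_add_sum_filter_not Finset.univ (fun x => IsConj g x),
      Finset.sum_congr rfl (fun x hx => h1 x (Finset.mem_filter.1 hx).2),
      Finset.sum_congr rfl (fun x hx => h0 x (Finset.mem_filter.1 hx).2)]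
    simp [Set.ncard_eq_toFinset_card']
  have e2 : ∑ h, p.2 h = ({x | IsConj h x}.ncard : ℂ) := by
    rw [← Finset.sum_filter_add_sum_filter_not Finset.univ (fun x => IsConj h x),
      Finset.sum_congr rfl (fun x hx => h1' x (Finset.mem_filter.1 hx).2),
      Finset.sum_congr rfl (fun x hx => h0' x (Finset.mem_filter.1 hx).2)]
    simp [Set.ncard_eq_toFinset_card']
  rw [e1, e2] at h2
  exact h2

theorem ncard_isConj_one (K : Type) [Group K] : {x : K | IsConj 1 x}.ncard = 1 := by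
  have : {x : K | IsConj 1 x} = {1} := by
    ext x
    simp
  rw [this, Set.ncard_singleton]

theorem TRel.card_eq (hR : TRel G H R) : Nat.card G = Nat.card H := by
  have h := hR.class_avg hR.one
  rw [ncard_isConj_one, ncard_isConj_one] at h
  simp only [Nat.cast_one, mul_one, inv_inj] at h
  exact_mod_cast h

/-- class sizes -/
theorem TRel.card_class (hR : TRel G H R) {g : G} {h : H} (a : R g h) :
    {x | IsConj g x}.ncard = {x | IsConj h x}.ncard := by
  have h1 := hR.class_avg a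
  rw [hR.card_eq] at h1
  have hne : (Nat.card H : ℂ)⁻¹ ≠ 0 := by
    have := Nat.card_pos (α := H)
    rw [ne_eq, inv_eq_zero]
    exact_mod_cast this.ne'
  have := mul_left_cancel₀ hne h1
  exact_mod_cast this

end Pool.Syl2
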