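import Pool.Agent.Syl2.Tab4

/-! # Table facts, part 5: matched sets, sums, normal subgroups, quotients -/

set_option autoImplicit false

namespace Pool.Syl2

open Representation Module

variable {G H : Type} [Group G] [Group H] [Finite G] [Finite H] {R : G → H → Prop}

/-- a bijection which respects the relation -/
theorem TRel.exists_equiv (hR : TRel G H R) : ∃ f : G ≃ H, ∀ g, R g (f g) := by
  classical
  have hout : ∀ c : ConjClasses G, ConjClasses.mk (Quotient.out c) = c := fun c => Quotient.out_eq c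
  choose t ht using hR.left
  let e0 : ConjClasses G → ConjClasses H := fun c => ConjClasses.mk (t (Quotient.out c))
  have hbij : Function.Bijective e0 := by
    constructor
    · intro c c' h
      have h1 : IsConj (t (Quotient.out c)) (t (Quotient.out c')) :=
        ConjClasses.mk_eq_mk_iff_isConj.1 h
      have h2 := (hR.isConj_iff (ht _) (ht _)).2 h1
      rw [← hout c, ← hout c']
      exact ConjClasses.mk_eq_mk_iff_isConj.2 h2
    · intro d
      obtain ⟨h, rfl⟩ := ConjClasses.exists_rep d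
      obtain ⟨g, hg⟩ := hR.right h
      refine ⟨ConjClasses.mk g, ?_⟩
      apply ConjClasses.mk_eq_mk_iff_isConj.2
      have h1 : IsConj (Quotient.out (ConjClasses.mk g)) g :=
        ConjClasses.mk_eq_mk_iff_isConj.1 (hout _)
      exact (hR.isConj_iff (ht _) hg).1 h1
  let e : ConjClasses G ≃ ConjClasses H := Equiv.ofBijective e0 hbij
  have hcard : ∀ c : ConjClasses G, Nonempty ({x // ConjClasses.mk x = c} ≃ {y // ConjClasses.mk y = e c}) := by
    intro c
    have h1 := hR.card_class (ht (Quotient.out c))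
    have h2 : {x | IsConj (Quotient.out c) x} = {x | ConjClasses.mk x = c} := by
      ext x
      rw [Set.mem_ofPred_eq, Set.mem_ofPred_eq, ← ConjClasses.mk_eq_mk_iff_isConj, hout]
      exact eq_comm
    have h3 : {y | IsConj (t (Quotient.out c)) y} = {y | ConjClasses.mk y = e c} := by
      ext y
      rw [Set.mem_ofPred_eq, Set.mem_ofPred_eq, ← ConjClasses.mk_eq_mk_iff_isConj]
      exact eq_comm
    rw [h2, h3] at h1
    have h4 : Nat.card {x // ConjClasses.mk x = c} = Nat.card {y // ConjClasses.mk y = e c} := h1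
    exact Finite.card_eq.1 h4
  let F : ∀ c : ConjClasses G, {x // ConjClasses.mk x = c} ≃ {y // ConjClasses.mk y = e c} :=
    fun c => (hcard c).some
  let f : G ≃ H := (Equiv.sigmaFiberEquiv (ConjClasses.mk : G → ConjClasses G)).symm.trans
    ((Equiv.sigmaCongr e F).trans (Equiv.sigmaFiberEquiv (ConjClasses.mk : H → ConjClasses H)))
  refine ⟨f, fun g => ?_⟩
  have h1 : f g = (F (ConjClasses.mk g) ⟨g, rfl⟩ : H) := rfl
  have h2 : ConjClasses.mk (f g) = e (ConjClasses.mk g) := by
    rw [h1]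
    exact (F (ConjClasses.mk g) ⟨g, rfl⟩).2
  have h3 : IsConj (t (Quotient.out (ConjClasses.mk g))) (f g) :=
    ConjClasses.mk_eq_mk_iff_isConj.1 h2.symm
  have h4 : IsConj (Quotient.out (ConjClasses.mk g)) g :=
    ConjClasses.mk_eq_mk_iff_isConj.1 (hout _)
  exact hR.conj _ _ _ _ (ht _) h4 h3

/-- matched functions have equal sums -/
theorem TRel.sum_eq (hR : TRel G H R) {M : Type} [AddCommMonoid M] [Fintype G] [Fintype H]
    (φ : G → M) (ψ : H → M) (h : ∀ g h, R g h → φ g = ψ h) : ∑ g, φ g = ∑ h, ψ h := by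
  obtain ⟨f, hf⟩ := hR.exists_equiv
  exact Fintype.sum_equiv f _ _ (fun g => h g (f g) (hf g))

/-- matched sets -/
def Mat (R : G → H → Prop) (S : Set G) (T : Set H) : Prop := ∀ g h, R g h → (g ∈ S ↔ h ∈ T)

theorem TRel.ncard_eq (hR : TRel G H R) {S : Set G} {T : Set H} (h : Mat R S T) : S.ncard = T.ncard := by
  obtain ⟨f, hf⟩ := hR.exists_equiv
  have : T = f '' S := by
    ext x
    constructor
    · intro hx
      refine ⟨f.symm x, ?_, f.apply_symm_apply x⟩
      have := hf (f.symm x)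
      rw [f.apply_symm_apply] at this
      exact (h _ _ this).2 hx
    · rintro ⟨y, hy, rfl⟩
      exact (h _ _ (hf y)).1 hy
  rw [this, Set.ncard_image_of_injective _ f.injective]

/-- sums over matched sets -/
theorem TRel.finsum_mem_eq (hR : TRel G H R) {M : Type} [AddCommMonoid M] {S : Set G} {T : Set H}
    (hST : Mat R S T) (φ : G → M) (ψ : H → M) (h : ∀ g h, R g h → g ∈ S → φ g = ψ h) :
    ∑ᶠ g ∈ S, φ g = ∑ᶠ h ∈ T, ψ h := by
  classical
  letI := Fintype.ofFinite G
  letI := Fintype.ofFinite H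
  rw [finsum_mem_def, finsum_mem_def, finsum_eq_sum_of_fintype, finsum_eq_sum_of_fintype]
  refine hR.sum_eq _ _ (fun g k a => ?_)
  by_cases hg : g ∈ S
  · rw [Set.indicator_of_mem hg, Set.indicator_of_mem ((hST g k a).1 hg), h g k a hg]
  · rw [Set.indicator_of_notMem hg, Set.indicator_of_notMem (fun hk => hg ((hST g k a).2 hk))]

omit [Finite G] [Finite H] in
theorem Mat.symm {S : Set G} {T : Set H} (h : Mat R S T) : Mat (fun h g => R g h) T S :=
  fun x y a => (h y x a).symm

omit [Finite G] [Finite H] in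
theorem Mat.compl {S : Set G} {T : Set H} (h : Mat R S T) : Mat R Sᶜ Tᶜ :=
  fun x y a => not_congr (h x y a)

omit [Finite G] [Finite H] in
theorem Mat.inter {S S' : Set G} {T T' : Set H} (h : Mat R S T) (h' : Mat R S' T') :
    Mat R (S ∩ S') (T ∩ T') := fun x y a => and_congr (h x y a) (h' x y a)

omit [Finite G] [Finite H] in
theorem Mat.union {S S' : Set G} {T T' : Set H} (h : Mat R S T) (h' : Mat R S' T') :
    Mat R (S ∪ S') (T ∪ T') := fun x y a => or_congr (h x y a) (h' x y a)

omit [Finite G] [Finite H] in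
theorem Mat.subset_iff (hR : TRel G H R) {S S' : Set G} {T T' : Set H} (h : Mat R S T)
    (h' : Mat R S' T') : S ⊆ S' ↔ T ⊆ T' := by
  constructor
  · intro hs x hx
    obtain ⟨g, hg⟩ := hR.right x
    exact (h' g x hg).1 (hs ((h g x hg).2 hx))
  · intro hs x hx
    obtain ⟨k, hk⟩ := hR.left x
    exact (h' x k hk).2 (hs ((h x k hk).1 hx))

omit [Finite G] [Finite H] in
theorem Mat.eq_right (hR : TRel G H R) {S : Set G} {T T' : Set H} (h : Mat R S T)
    (h' : Mat R S T') : T = T' := by
  ext x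
  obtain ⟨g, hg⟩ := hR.right x
  rw [← h g x hg, h' g x hg]

theorem TRel.card_centralizer (hR : TRel G H R) {g : G} {h : H} (a : R g h) :
    Nat.card (Subgroup.centralizer {g}) = Nat.card (Subgroup.centralizer {h}) := by
  have key : ∀ (K : Type) [Group K] [Finite K] (k : K),
      {x | IsConj k x}.ncard * Nat.card (Subgroup.centralizer {k}) = Nat.card K := by
    intro K _ _ k
    have h1 := Nat.card_congr (MulAction.orbitProdStabilizerEquivGroup (ConjAct K) (k : K))
    rw [Nat.card_prod] at h1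
    have h2 : Nat.card (ConjAct K) = Nat.card K := Nat.card_congr ConjAct.ofConjAct.toEquiv
    have h3 : MulAction.orbit (ConjAct K) k = {x | IsConj k x} := by
      ext x
      rw [Set.mem_ofPred_eq, ConjAct.mem_orbit_conjAct]
      exact ⟨fun h => h.symm, fun h => h.symm⟩
    have h4 : Nat.card (MulAction.stabilizer (ConjAct K) k) = Nat.card (Subgroup.centralizer {k}) := by
      rw [ConjAct.stabilizer_eq_centralizer]
      refine Nat.card_congr
        { toFun := fun x => ⟨ConjAct.ofConjAct x.1, ?_⟩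
          invFun := fun x => ⟨ConjAct.toConjAct x.1, ?_⟩
          left_inv := fun x => rfl
          right_inv := fun x => rfl }
      · exact x.2
      · exact x.2
    rw [h3, h4, h2] at h1
    exact h1
  have h1 := key G g
  have h2 := key H h
  rw [hR.card_eq, hR.card_class a] at h1
  have hpos : 0 < {x | IsConj h x}.ncard := by
    rw [Set.ncard_pos]
    exact ⟨h, IsConj.refl h⟩
  exact Nat.eq_of_mul_eq_mul_left hpos (h1.trans h2.symm)

/-- the corresponding normal subgroup exists -/
theorem TRel.exists_normal (hR : TRel G H R) (N : Subgroup G) [N.Normal] :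
    ∃ N' : Subgroup H, N'.Normal ∧ Mat R (N : Set G) (N' : Set H) := by
  classical
  letI := Fintype.ofFinite G
  letI : Fintype (G ⧸ N) := Fintype.ofFinite _
  let χ : G → ℂ := fun g => (permRep (G ⧸ N) (G ⧸ N)).character (g : G ⧸ N)
  have hχ : IsChar G χ := (isChar_character (permRep (G ⧸ N) (G ⧸ N))).comp (QuotientGroup.mk' N)
  have hval : ∀ g : G, χ g = (Fintype.card (G ⧸ N) : ℂ) ↔ g ∈ N := by
    intro g
    show (permRep (G ⧸ N) (G ⧸ N)).character (g : G ⧸ N) = _ ↔ _
    rw [character_permRep, Nat.cast_inj]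
    constructor
    · intro h
      have h1 : Finset.univ.filter (fun x : G ⧸ N => (g : G ⧸ N) • x = x) = Finset.univ :=
        Finset.eq_univ_of_card _ h
      have h2 : (1 : G ⧸ N) ∈ Finset.univ.filter (fun x : G ⧸ N => (g : G ⧸ N) • x = x) := by
        rw [h1]; exact Finset.mem_univ _
      have h3 := (Finset.mem_filter.1 h2).2
      rw [smul_eq_mul, mul_one] at h3
      exact (QuotientGroup.eq_one_iff g).1 h3
    · intro hg
      rw [(QuotientGroup.eq_one_iff g).2 hg]
      simp
  obtain ⟨ψ, ⟨W, _, _, _, σ, hψ⟩, hm⟩ := hR.fwd χ hχ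
  have hdim : (finrank ℂ W : ℂ) = Fintype.card (G ⧸ N) := by
    have h1 := hm 1 1 hR.one
    rw [hψ, char_one] at h1
    rw [← h1]
    exact (hval 1).2 N.one_mem
  refine ⟨σ.ker, inferInstance, ?_⟩
  intro g h a
  rw [SetLike.mem_coe, SetLike.mem_coe, MonoidHom.mem_ker, ← character_eq_finrank_iff σ h, hdim,
    ← hval g, hm g h a, hψ]

/-- the normal subgroup of `H` that corresponds to `N` (normal in `G`) -/
def nor (R : G → H → Prop) (N : Subgroup G) : Subgroup H := Subgroup.closure {h | ∃ g ∈ N, R g h}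

theorem TRel.mat_nor (hR : TRel G H R) (N : Subgroup G) [N.Normal] :
    Mat R (N : Set G) (nor R N : Set H) := by
  obtain ⟨N', hN', hm⟩ := hR.exists_normal N
  have : {h | ∃ g ∈ N, R g h} = (N' : Set H) := by
    ext x
    constructor
    · rintro ⟨g, hg, a⟩
      exact (hm g x a).1 hg
    · intro hx
      obtain ⟨g, hg⟩ := hR.right x
      exact ⟨g, (hm g x hg).2 hx, hg⟩
  unfold nor
  rw [this, Subgroup.closure_eq]
  exact hm

/-- a subgroup matched with a normal subgroup is normal -/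
theorem Mat.normal (hR : TRel G H R) {N : Subgroup G} {N' : Subgroup H} [_hN : N.Normal]
    (h : Mat R (N : Set G) (N' : Set H)) : N'.Normal := by
  constructor
  intro n hn c
  obtain ⟨g, hg⟩ := hR.right n
  have h1 : R g (c * n * c⁻¹) := hR.conj _ _ _ _ hg (IsConj.refl _) (isConj_iff.2 ⟨c, rfl⟩)
  exact (h _ _ h1).1 ((h _ _ hg).2 hn)

theorem TRel.nor_eq (hR : TRel G H R) {N : Subgroup G} {N' : Subgroup H} [N.Normal]
    (h : Mat R (N : Set G) (N' : Set H)) : nor R N = N' :=
  SetLike.coe_injective (Mat.eq_right hR (hR.mat_nor N) h)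

theorem TRel.normal_nor (hR : TRel G H R) (N : Subgroup G) [N.Normal] : (nor R N).Normal :=
  Mat.normal hR (hR.mat_nor N)

theorem Mat.card_eq (hR : TRel G H R) {N : Subgroup G} {N' : Subgroup H}
    (h : Mat R (N : Set G) (N' : Set H)) : Nat.card N = Nat.card N' := by
  have := hR.ncard_eq h
  exact this

theorem TRel.card_nor (hR : TRel G H R) (N : Subgroup G) [N.Normal] :
    Nat.card (nor R N) = Nat.card N := (Mat.card_eq hR (hR.mat_nor N)).symm

theorem TRel.nor_le_iff (hR : TRel G H R) (N M : Subgroup G) [N.Normal] [M.Normal] :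
    nor R N ≤ nor R M ↔ N ≤ M := (Mat.subset_iff hR (hR.mat_nor N) (hR.mat_nor M)).symm

theorem TRel.exists_nor (hR : TRel G H R) (M : Subgroup H) [M.Normal] :
    ∃ N : Subgroup G, N.Normal ∧ nor R N = M := by
  obtain ⟨N, hN, hm⟩ := hR.symm.exists_normal M
  exact ⟨N, hN, hR.nor_eq hm.symm⟩

theorem TRel.mat_normalClosure (hR : TRel G H R) {S : Set G} {T : Set H} (h : Mat R S T) :
    Mat R (Subgroup.normalClosure S : Set G) (Subgroup.normalClosure T : Set H) := by
  have h1 : nor R (Subgroup.normalClosure S) = Subgroup.normalClosure T := by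
    apply le_antisymm
    · obtain ⟨N, hN, hm⟩ := hR.symm.exists_normal (Subgroup.normalClosure T)
      have hSN : S ⊆ N := by
        rw [Mat.subset_iff hR h hm.symm]
        exact Subgroup.subset_normalClosure
      have := Subgroup.normalClosure_le_normal hSN
      rw [← hR.nor_eq hm.symm]
      exact (hR.nor_le_iff _ _).2 this
    · have := hR.normal_nor (Subgroup.normalClosure S)
      apply Subgroup.normalClosure_le_normal
      rw [← Mat.subset_iff hR h (hR.mat_nor _)]
      exact Subgroup.subset_normalClosure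
  rw [← h1]
  exact hR.mat_nor _

theorem TRel.nor_normalClosure (hR : TRel G H R) {S : Set G} {T : Set H} (h : Mat R S T) :
    nor R (Subgroup.normalClosure S) = Subgroup.normalClosure T :=
  hR.nor_eq (hR.mat_normalClosure h)

/-- the relation on the quotients -/
def qR (R : G → H → Prop) (N : Subgroup G) (N' : Subgroup H) : G ⧸ N → H ⧸ N' → Prop :=
  fun x y => ∃ g h, R g h ∧ (g : G ⧸ N) = x ∧ (h : H ⧸ N') = y

theorem qR_fwd (hR : TRel G H R) (N : Subgroup G) (N' : Subgroup H) [N.Normal] [N'.Normal]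
    (h : Mat R (N : Set G) (N' : Set H)) (χ : G ⧸ N → ℂ) (hχ : IsChar (G ⧸ N) χ) :
    ∃ ψ, IsChar (H ⧸ N') ψ ∧ ∀ x y, qR R N N' x y → χ x = ψ y := by
  have h1 : IsChar G (fun g => χ (g : G ⧸ N)) := hχ.comp (QuotientGroup.mk' N)
  obtain ⟨ψ, ⟨W, _, _, _, σ, hψ⟩, hm⟩ := hR.fwd _ h1
  have hker : ∀ n ∈ N', σ n = 1 := by
    intro n hn
    obtain ⟨g, hg⟩ := hR.right n
    have hgN : g ∈ N := (h g n hg).2 hn
    rw [← character_eq_finrank_iff σ n, ← hψ, ← hm g n hg, (QuotientGroup.eq_one_iff g).2 hgN]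
    have h2 := hm 1 1 hR.one
    rw [hψ, char_one] at h2
    rw [← h2]
    rfl
  let τ : Representation ℂ (H ⧸ N') W := QuotientGroup.lift N' σ hker
  refine ⟨τ.character, isChar_character τ, ?_⟩
  rintro x y ⟨g, k, a, rfl, rfl⟩
  rw [hm g k a, hψ]
  rfl

theorem TRel.quotient (hR : TRel G H R) (N : Subgroup G) (N' : Subgroup H) [N.Normal] [N'.Normal]
    (h : Mat R (N : Set G) (N' : Set H)) : TRel (G ⧸ N) (H ⧸ N') (qR R N N') where
  left x := by
    obtain ⟨g, rfl⟩ := QuotientGroup.mk_surjective x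
    obtain ⟨k, hk⟩ := hR.left g
    exact ⟨(k : H ⧸ N'), g, k, hk, rfl, rfl⟩
  right y := by
    obtain ⟨k, rfl⟩ := QuotientGroup.mk_surjective y
    obtain ⟨g, hg⟩ := hR.right k
    exact ⟨(g : G ⧸ N), g, k, hg, rfl, rfl⟩
  conj := by
    rintro x x' y y' ⟨g, k, a, rfl, rfl⟩ hx hy
    obtain ⟨c, hc⟩ := _root_.isConj_iff.1 hx
    obtain ⟨d, hd⟩ := _root_.isConj_iff.1 hy
    obtain ⟨c, rfl⟩ := QuotientGroup.mk_surjective c
    obtain ⟨d, rfl⟩ := QuotientGroup.mk_surjective d
    refine ⟨c * g * c⁻¹, d * k * d⁻¹, hR.conj _ _ _ _ a (_root_.isConj_iff.2 ⟨c, rfl⟩) (_root_.isConj_iff.2 ⟨d, rfl⟩), ?_, ?_⟩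
    · rw [← hc]; rfl
    · rw [← hd]; rfl
  fwd χ hχ := qR_fwd hR N N' h χ hχ
  bwd ψ hψ := by
    obtain ⟨χ, hχ, hm⟩ := qR_fwd hR.symm N' N h.symm ψ hψ
    refine ⟨χ, hχ, ?_⟩
    rintro x y ⟨g, k, a, rfl, rfl⟩
    exact (hm _ _ ⟨k, g, a, rfl, rfl⟩).symm

end Pool.Syl2
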